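import Pool.Agent.Lib.EXA.ABlue

/-! Integrability of monomials. -/

open scoped Classical Topology ENNReal ContDiff ComplexConjugate
open Set MeasureTheory Complex Metric Filter

set_option linter.unusedVariables false

noncomputable section

namespace Pool.Agent.Lib.EXA

open Pool.Agent.Lib.SV (E)
open Pool.Agent.Lib.HS32

namespace MINT

variable {n : ℕ}

theorem ae_off (C : Finset (Fin n)) : ∀ᵐ z : E n, Off C z := by
  have : ∀ᵐ z : E n, ∀ i, z i ≠ 0 := ae_all_iff.2 fun i =>
    Measure.ae_eval_ne (fun _ : Fin n => (volume : Measure ℂ)) i 0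
  exact this.mono fun z hz i _ => hz i

theorem open_off (C : Finset (Fin n)) : IsOpen {z : E n | Off C z} := by
  have : {z : E n | Off C z} = ⋂ i ∈ C, {z : E n | z i ≠ 0} := by
    ext z
    simp [Off]
  rw [this]
  exact isOpen_biInter_finset fun i _ => isOpen_ne_fun (continuous_apply i) continuous_const

theorem meas_mon (C : Finset (Fin n)) (r : Fin n → ℝ) (P Q : Fin n → ℤ) :
    Measurable (mon C r P Q) := by
  refine Finset.measurable_prod C fun i _ => ?_
  have h1 : Measurable fun z : E n => normSq (z i) :=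
    continuous_normSq.measurable.comp (measurable_pi_apply i)
  have h2 : Measurable fun z : E n => star (z i) :=
    (continuous_star.comp (continuous_apply i)).measurable
  exact ((measurable_ofReal.comp (h1.pow_const _)).mul ((measurable_pi_apply i).pow_const _)).mul
    (h2.pow_const _)

theorem norm_fac (s : ℝ) (P Q : ℤ) {ζ : ℂ} (h : ζ ≠ 0) :
    ‖((normSq ζ ^ s : ℝ) : ℂ) * ζ ^ P * star ζ ^ Q‖ = ‖ζ‖ ^ (2 * s + P + Q) := by
  have h0 : 0 < ‖ζ‖ := norm_pos_iff.2 h
  rw [norm_mul, norm_mul, norm_zpow, norm_zpow, norm_star, norm_real,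
    Real.norm_of_nonneg (Real.rpow_nonneg (normSq_nonneg ζ) _), normSq_eq_norm_sq,
    Real.rpow_add h0, Real.rpow_add h0, Real.rpow_intCast, Real.rpow_intCast, Real.rpow_mul h0.le,
    Real.rpow_two]

theorem norm_mon (C : Finset (Fin n)) (r : Fin n → ℝ) (P Q : Fin n → ℤ) {z : E n}
    (hz : Off C z) : ‖mon C r P Q z‖ = ∏ i ∈ C, ‖z i‖ ^ (2 * r i + P i + Q i) := by
  rw [mon, norm_prod]
  exact Finset.prod_congr rfl fun i hi => norm_fac _ _ _ (hz i hi)

theorem int_one {c : ℝ} (hc : -2 < c) (R : ℝ) :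
    IntegrableOn (fun ζ : ℂ => ‖ζ‖ ^ c) (ball 0 R) := by
  refine integrableOn_ball_of_norm_le_rpow (C := 1) (α := -c) (by simp) (by simp; linarith)
    (Eventually.of_forall fun ζ => ?_) (measurable_norm.pow_const c).aestronglyMeasurable
  rw [neg_neg, one_mul, Real.norm_of_nonneg (Real.rpow_nonneg (norm_nonneg _) _)]

/-- Products of powers of the moduli are integrable on polydiscs. -/
theorem int_prod (C : Finset (Fin n)) (c : Fin n → ℝ) (hc : ∀ i ∈ C, -2 < c i) (R : ℝ)
    (hR : 0 < R) : IntegrableOn (fun z : E n => ∏ i ∈ C, ‖z i‖ ^ c i) (ball 0 R) := by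
  have h := Integrable.fintype_prod (μ := fun _ : Fin n => (volume : Measure ℂ))
    (f := fun i => (ball (0 : ℂ) R).indicator fun ζ => ‖ζ‖ ^ (if i ∈ C then c i else 0))
    fun i => (integrable_indicator_iff measurableSet_ball).2 (int_one (by
      split_ifs with hi
      · exact hc i hi
      · norm_num) R)
  refine (h.integrableOn (s := ball 0 R)).congr_fun (fun z hz => ?_) measurableSet_ball
  have hz' : ∀ i, z i ∈ ball (0 : ℂ) R := fun i =>
    mem_ball_zero_iff.2 ((norm_le_pi_norm z i).trans_lt (mem_ball_zero_iff.1 hz))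
  simp only [indicator_of_mem (hz' _)]
  rw [← Finset.prod_subset (Finset.subset_univ C) fun i _ hi => by simp [hi]]
  exact Finset.prod_congr rfl fun i hi => by rw [if_pos hi]

/-- A measurable monomial times a bounded function of bounded support. -/
theorem int_mon_bdd (C : Finset (Fin n)) (r : Fin n → ℝ) (P Q : Fin n → ℤ) {g : E n → ℂ}
    (hg : AEStronglyMeasurable g volume) {M R : ℝ} (hR : 0 < R) (hM : ∀ z, ‖g z‖ ≤ M)
    (h0 : ∀ z, R ≤ ‖z‖ → g z = 0) (hc : ∀ i ∈ C, -2 < 2 * r i + P i + Q i) :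
    Integrable fun z => mon C r P Q z * g z := by
  have h := ((integrable_indicator_iff measurableSet_ball).2 (int_prod C _ hc R hR)).mul_const M
  refine h.mono' ((meas_mon C r P Q).aestronglyMeasurable.mul hg) ((ae_off C).mono fun z hz => ?_)
  by_cases hb : z ∈ ball (0 : E n) R
  · rw [indicator_of_mem hb, norm_mul, norm_mon C r P Q hz]
    exact mul_le_mul_of_nonneg_left (hM z)
      (Finset.prod_nonneg fun i _ => Real.rpow_nonneg (norm_nonneg _) _)
  · rw [indicator_of_notMem hb, h0 z (by simpa using hb)]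
    simp

theorem exists_bd {g : E n → ℂ} (hg : Continuous g) (hs : HasCompactSupport g) :
    ∃ M R : ℝ, 0 < R ∧ (∀ z, ‖g z‖ ≤ M) ∧ ∀ z, R ≤ ‖z‖ → g z = 0 := by
  obtain ⟨M, hM⟩ := hs.exists_bound_of_continuous hg
  obtain ⟨R, hR, h⟩ := hs.isCompact.isBounded.exists_pos_norm_lt
  exact ⟨M, R, hR, hM, fun z hz => image_eq_zero_of_notMem_tsupport fun h' =>
    (h z h').not_ge hz⟩

theorem int_mon (C : Finset (Fin n)) (r : Fin n → ℝ) (P Q : Fin n → ℤ) {g : E n → ℂ}
    (hg : Continuous g) (hs : HasCompactSupport g) (hc : ∀ i ∈ C, -2 < 2 * r i + P i + Q i) :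
    Integrable fun z => mon C r P Q z * g z := by
  obtain ⟨M, R, hR, hM, h0⟩ := exists_bd hg hs
  exact int_mon_bdd C r P Q hg.aestronglyMeasurable hR hM h0 hc

theorem wt_mon (C : Finset (Fin n)) (w : E n → ℝ) (r : Fin n → ℝ) (P Q : Fin n → ℤ) (t : ℝ)
    {z : E n} (hz : Off C z) : wt C w t z * mon C r P Q z =
      mon C (fun i => r i + t) P Q z * ((Real.exp (-(t * w z)) : ℝ) : ℂ) := by
  have e1 : Real.exp (t * lN C w z) = (∏ i ∈ C, normSq (z i) ^ t) * Real.exp (-(t * w z)) := by
    rw [lN, mul_sub, sub_eq_add_neg, Real.exp_add, Finset.mul_sum, Real.exp_sum]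
    congr 1
    exact Finset.prod_congr rfl fun i hi => by
      rw [Real.rpow_def_of_pos (normSq_pos.2 (hz i hi)), mul_comm]
  rw [wt, e1, ofReal_mul, ofReal_prod, mul_right_comm, mon, mon, ← Finset.prod_mul_distrib]
  congr 1
  refine Finset.prod_congr rfl fun i hi => ?_
  rw [Real.rpow_add (normSq_pos.2 (hz i hi)), ofReal_mul]
  ring

end MINT

open MINT in
theorem bMINT : St_MINT := by
  intro n C
  refine ⟨ae_off C, open_off C, fun r P Q g hg hs hc => int_mon C r P Q hg hs hc,
    fun w hw => ⟨?_, fun K hK => ?_, fun r P Q t z hz => wt_mon C w r P Q t hz,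
      fun r P Q g hg hs t hc => ?_⟩⟩
  · exact (Finset.measurable_sum C fun i _ => Real.measurable_log.comp
      (continuous_normSq.measurable.comp (measurable_pi_apply i))).sub hw.measurable
  · have hc : Continuous fun z : E n => ∑ i ∈ C, normSq (z i) - w z :=
      (continuous_finset_sum C fun i _ => continuous_normSq.comp (continuous_apply i)).sub hw
    obtain ⟨M, hM⟩ := hK.bddAbove_image hc.continuousOn
    refine ⟨M, fun z hz => le_trans ?_ (hM ⟨z, hz, rfl⟩)⟩
    exact sub_le_sub_right (Finset.sum_le_sum fun i _ => Real.log_le_self (normSq_nonneg _)) _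
  · have h1 : Continuous fun z => ((Real.exp (-(t * w z)) : ℝ) : ℂ) * g z := by fun_prop
    refine (int_mon C (fun i => r i + t) P Q h1 hs.mul_left hc).congr
      ((ae_off C).mono fun z hz => ?_)
    simp only [← mul_assoc, wt_mon C w r P Q t hz]

end Pool.Agent.Lib.EXA
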