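import Pool.Agent.Lib.HS32.EKit

/-! Blueprint of the analytic continuation layer of the project ex41: values at zero of
continued integrals of monomials times smooth functions. -/

open scoped Classical Topology ENNReal ContDiff ComplexConjugate
open Set MeasureTheory Complex Metric Filter

set_option linter.unusedVariables false

noncomputable section

namespace Pool.Agent.Lib.EXA

open Pool.Agent.Lib.SV (E)
open Pool.Agent.Lib.HS32

/-- The function `T`, given for large real arguments, continues to the right half plane after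
multiplication with an entire function and has the value `v` at zero. -/
def Val (T : ℝ → ℂ) (v : ℂ) : Prop :=
  ∃ q F : ℂ → ℂ, Differentiable ℂ q ∧ q 0 ≠ 0 ∧ DifferentiableOn ℂ F {μ | 0 < μ.re} ∧
    (∀ᶠ t : ℝ in atTop, F t = q t * T t) ∧
    Tendsto (fun t : ℝ => F t) (𝓝[>] 0) (𝓝 (q 0 * v))

variable {n : ℕ}

/-- The monomial in the coordinates of `C`, their conjugates and their absolute values. -/
def mon (C : Finset (Fin n)) (r : Fin n → ℝ) (P Q : Fin n → ℤ) (z : E n) : ℂ :=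
  ∏ i ∈ C, ((normSq (z i) ^ r i : ℝ) : ℂ) * z i ^ P i * star (z i) ^ Q i

/-- The logarithm of the regularising function. -/
def lN (C : Finset (Fin n)) (w : E n → ℝ) (z : E n) : ℝ :=
  ∑ i ∈ C, Real.log (normSq (z i)) - w z

/-- The power `t` of the regularising function. -/
def wt (C : Finset (Fin n)) (w : E n → ℝ) (t : ℝ) (z : E n) : ℂ :=
  ((Real.exp (t * lN C w z) : ℝ) : ℂ)

/-- Off the hyperplanes. -/
def Off (C : Finset (Fin n)) (z : E n) : Prop := ∀ i ∈ C, z i ≠ 0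

/-- The one variable monomial produces a pole at zero. -/
def BadC (r : ℝ) (P Q : ℤ) : Prop := (∃ j : ℕ, r + Q + 1 + j = 0) ∧ r + P ≤ -1

/-- The number of coordinates producing a pole. -/
def bad (C : Finset (Fin n)) (r : Fin n → ℝ) (P Q : Fin n → ℤ) : ℕ :=
  (C.filter fun i => BadC (r i) (P i) (Q i)).card

/-- Smooth near `z`. -/
def SmN {F : Type} [NormedAddCommGroup F] [NormedSpace ℝ F] (g : E n → F) (z : E n) : Prop :=
  ∀ᶠ w in 𝓝 z, ContDiffAt ℝ ∞ g w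

/-- Finite sums of monomials times smooth functions of compact support. -/
inductive Dec (C : Finset (Fin n)) (r : Fin n → ℝ) (k : ℕ) : (E n → ℂ) → Prop
  | zero : Dec C r k 0
  | mon (P Q : Fin n → ℤ) (g : E n → ℂ) : ContDiff ℝ ∞ g → HasCompactSupport g →
      bad C r P Q ≤ k → Dec C r k fun z => mon C r P Q z * g z
  | add (φ ψ : E n → ℂ) : Dec C r k φ → Dec C r k ψ → Dec C r k fun z => φ z + ψ z
  | congr (φ ψ : E n → ℂ) : Dec C r k φ → (∀ z, Off C z → ψ z = φ z) → Dec C r k ψ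

/-- Germs at `z` of finite sums of monomials times smooth functions. -/
inductive Loc (C : Finset (Fin n)) (r : Fin n → ℝ) (k : ℕ) (z : E n) : (E n → ℂ) → Prop
  | zero : Loc C r k z 0
  | mon (P Q : Fin n → ℤ) (g : E n → ℂ) : SmN g z → bad C r P Q ≤ k →
      Loc C r k z fun w => mon C r P Q w * g w
  | add (φ ψ : E n → ℂ) : Loc C r k z φ → Loc C r k z ψ → Loc C r k z fun w => φ w + ψ w
  | congr (φ ψ : E n → ℂ) : Loc C r k z φ → (∀ᶠ w in 𝓝 z, Off C w → ψ w = φ w) → Loc C r k z ψ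

/-- The regularised integral. -/
def RI (C : Finset (Fin n)) (w : E n → ℝ) (φ : E n → ℂ) (t : ℝ) : ℂ := ∫ z, wt C w t z * φ z

/-- The regularised integral of a monomial times a function. -/
def JM (C : Finset (Fin n)) (w : E n → ℝ) (r : Fin n → ℝ) (P Q : Fin n → ℤ) (g : E n → ℂ)
    (t : ℝ) : ℂ := RI C w (fun z => mon C r P Q z * g z) t

/-- The embedding of a coordinate subspace. -/
def emb {m : ℕ} (j : Fin m → Fin n) (y : E m) : E n := Function.extend j y 0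

/-! ### Rows -/

/-- Algebra of values. -/
def St_VAL : Prop :=
  (∀ v : ℂ, Val (fun _ => 0) v → v = 0) ∧
  (∀ (T : ℝ → ℂ) (v v' : ℂ), Val T v → Val T v' → v = v') ∧
  Val (fun _ => 0) 0 ∧
  (∀ (T T' : ℝ → ℂ) (v : ℂ), Val T v → (∀ᶠ t : ℝ in atTop, T' t = T t) → Val T' v) ∧
  (∀ (T T' : ℝ → ℂ) (v v' : ℂ), Val T v → Val T' v' → Val (fun t => T t + T' t) (v + v')) ∧
  (∀ (T : ℝ → ℂ) (v c : ℂ), Val T v → Val (fun t => c * T t) (c * v)) ∧
  (∀ (ι : Type) (s : Finset ι) (T : ι → ℝ → ℂ) (v : ι → ℂ), (∀ a ∈ s, Val (T a) (v a)) →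
    Val (fun t => ∑ a ∈ s, T a t) (∑ a ∈ s, v a)) ∧
  (∀ (T : ℝ → ℂ) (v : ℂ), Val T v → Val (fun t => (t : ℂ) * T t) 0) ∧
  ∀ (T : ℝ → ℂ) (v c : ℂ), c ≠ 0 → Val (fun t => ((t : ℂ) + c) * T t) v → Val T (v / c)

/-- Laplace transforms. -/
def St_LAP : Prop := ∀ (n : ℕ) (l : E n → ℝ) (φ : E n → ℂ), AEStronglyMeasurable l volume →
  ((∀ t : ℝ, 0 < t → Integrable fun z => ((Real.exp (t * l z) : ℝ) : ℂ) * φ z) →
    DifferentiableOn ℂ (fun μ : ℂ => ∫ z, Complex.exp (μ * l z) * φ z) {μ | 0 < μ.re}) ∧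
  (Integrable φ → (∃ M : ℝ, ∀ z, φ z ≠ 0 → l z ≤ M) →
    (∀ t : ℝ, 0 < t → Integrable fun z => ((Real.exp (t * l z) : ℝ) : ℂ) * φ z) ∧
    Val (fun t => ∫ z, ((Real.exp (t * l z) : ℝ) : ℂ) * φ z) (∫ z, φ z))

/-- Integrability of monomials. -/
def St_MINT : Prop := ∀ (n : ℕ) (C : Finset (Fin n)),
  (∀ᵐ z : E n, Off C z) ∧ IsOpen {z : E n | Off C z} ∧
  (∀ (r : Fin n → ℝ) (P Q : Fin n → ℤ) (g : E n → ℂ), Continuous g → HasCompactSupport g →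
    (∀ i ∈ C, -2 < 2 * r i + P i + Q i) → Integrable fun z => mon C r P Q z * g z) ∧
  ∀ w : E n → ℝ, Continuous w → Measurable (lN C w) ∧
    (∀ K : Set (E n), IsCompact K → ∃ M : ℝ, ∀ z ∈ K, lN C w z ≤ M) ∧
    (∀ (r : Fin n → ℝ) (P Q : Fin n → ℤ) (t : ℝ) (z : E n), Off C z →
      wt C w t z * mon C r P Q z =
        mon C (fun i => r i + t) P Q z * ((Real.exp (-(t * w z)) : ℝ) : ℂ)) ∧
    ∀ (r : Fin n → ℝ) (P Q : Fin n → ℤ) (g : E n → ℂ), Continuous g → HasCompactSupport g →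
      ∀ t : ℝ, (∀ i ∈ C, -2 < 2 * (r i + t) + P i + Q i) →
        Integrable fun z => wt C w t z * (mon C r P Q z * g z)

/-- Integration by parts in the conjugate of one coordinate. -/
def St_IBP : Prop := ∀ (n : ℕ) (C : Finset (Fin n)) (w : E n → ℝ) (r : Fin n → ℝ)
  (P Q : Fin n → ℤ) (g : E n → ℂ) (j : Fin n), ContDiff ℝ ∞ w → ContDiff ℝ ∞ g →
  HasCompactSupport g →
  (j ∈ C → ∀ᶠ t : ℝ in atTop, ((t : ℂ) + (r j + Q j + 1)) * JM C w r P Q g t =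
    -JM C w r P (Function.update Q j (Q j + 1)) (dzb j g) t +
      t * JM C w r P (Function.update Q j (Q j + 1))
        (fun z => g z * dzb j (fun y => (w y : ℂ)) z) t) ∧
  (j ∉ C → ∀ᶠ t : ℝ in atTop, JM C w r P Q (dzb j g) t =
    t * JM C w r P Q (fun z => g z * dzb j (fun y => (w y : ℂ)) z) t)

/-- Continuation for one monomial. -/
def St_ACM : Prop := ∀ (n : ℕ) (C : Finset (Fin n)) (w : E n → ℝ) (r : Fin n → ℝ)
  (P Q : Fin n → ℤ) (g : E n → ℂ) (m : ℕ), ContDiff ℝ ∞ w → ContDiff ℝ ∞ g →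
  HasCompactSupport g → bad C r P Q ≤ m → ∃ v, Val (fun t => (t : ℂ) ^ m * JM C w r P Q g t) v

/-- Closure properties of germs. -/
def St_LOCK : Prop := ∀ (n : ℕ) (C : Finset (Fin n)) (r : Fin n → ℝ) (k : ℕ) (z : E n),
  (∀ (φ : E n → ℂ) (k' : ℕ), k ≤ k' → Loc C r k z φ → Loc C r k' z φ) ∧
  (∀ φ : E n → ℂ, Loc C r k z φ → Loc C r n z φ) ∧
  (∀ φ : E n → ℂ, (∀ᶠ w in 𝓝 z, Off C w → φ w = 0) → Loc C r k z φ) ∧
  (∀ φ g : E n → ℂ, Loc C r k z φ → SmN g z → Loc C r k z fun w => φ w * g w) ∧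
  (∀ φ ψ : E n → ℂ, Loc C r k z φ → Loc C r k z ψ → Loc C r k z fun w => φ w - ψ w) ∧
  (∀ (ι : Type) (s : Finset ι) (φ : ι → E n → ℂ), (∀ a ∈ s, Loc C r k z (φ a)) →
    Loc C r k z fun w => ∑ a ∈ s, φ a w) ∧
  (∀ (P Q : Fin n → ℤ) (g : E n → ℂ), SmN g z →
    (C.filter fun i => z i = 0 ∧ BadC (r i) (P i) (Q i)).card ≤ k →
    Loc C r k z fun w => mon C r P Q w * g w) ∧
  (∀ φ : E n → ℂ, Loc C r k z φ → ∀ᶠ y in 𝓝 z, Loc C r k y φ) ∧
  (∀ φ : E n → ℂ, Loc C r k z φ → ∀ᶠ y in 𝓝 z, Off C y → SmN φ y) ∧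
  (∀ (φ : E n → ℂ) (P Q : Fin n → ℤ), Loc C r k z φ →
    Loc C r n z fun w => φ w * mon C 0 P Q w) ∧
  ∀ (φ : E n → ℂ) (j : Fin n), Loc C r k z φ → Loc C r n z (dzb j φ) ∧ Loc C r n z (dz j φ) ∧
    ∀ w : E n → ℝ, SmN w z →
      Loc C r n z (fun y => φ y * dzb j (fun x => (lN C w x : ℂ)) y) ∧
      Loc C r n z fun y => φ y * dz j (fun x => (lN C w x : ℂ)) y

/-- Change of adapted coordinates. -/
def St_LCH : Prop := ∀ (n n' : ℕ) (C : Finset (Fin n)) (C' : Finset (Fin n')) (r : Fin n → ℝ)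
  (r' : Fin n' → ℝ) (k : ℕ) (ψ : E n → E n') (z : E n) (τ : Fin n' → Fin n) (φ : E n' → ℂ),
  SmN ψ z → Set.BijOn τ {i | i ∈ C' ∧ ψ z i = 0} {i | i ∈ C ∧ z i = 0} →
  (∀ i ∈ C', ψ z i = 0 → r (τ i) = r' i ∧
    ∃ u : E n → ℂ, SmN u z ∧ u z ≠ 0 ∧ ∀ᶠ w in 𝓝 z, ψ w i = u w * w (τ i)) →
  Loc C' r' k (ψ z) φ → Loc C r k z (φ ∘ ψ)

/-- From germs to global decompositions. -/
def St_GLOB : Prop := ∀ (n : ℕ) (K : Set (E n)), IsCompact K →
  (∀ (C : Finset (Fin n)) (r : Fin n → ℝ) (k : ℕ) (φ : E n → ℂ), (∀ z ∉ K, φ z = 0) →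
    (∀ z ∈ K, Loc C r k z φ) → Dec C r k φ) ∧
  (∀ w : E n → ℝ, (∀ z ∈ K, SmN w z) →
    ∃ w' : E n → ℝ, ContDiff ℝ ∞ w' ∧ ∀ z ∈ K, w' =ᶠ[𝓝 z] w) ∧
  ∀ g : E n → ℂ, (∀ z ∉ K, g z = 0) → (∀ z ∈ K, SmN g z) → ContDiff ℝ ∞ g ∧ HasCompactSupport g

/-- Continuation and vanishing of the value. -/
def St_AC1 : Prop := ∀ (n : ℕ) (C : Finset (Fin n)) (r : Fin n → ℝ) (k : ℕ) (w : E n → ℝ)
  (K : Set (E n)) (φ : E n → ℂ), IsCompact K → (∀ z ∈ K, SmN w z) → (∀ z ∉ K, φ z = 0) →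
  (∀ z ∈ K, Loc C r k z φ) →
  (∀ᶠ t : ℝ in atTop, Integrable fun z => wt C w t z * φ z) ∧
  (∀ m, k ≤ m → ∃ v, Val (fun t => (t : ℂ) ^ m * RI C w φ t) v) ∧
  ∀ m, k < m → Val (fun t => (t : ℂ) ^ m * RI C w φ t) 0

/-- The divergence theorem for large exponents. -/
def St_DIVE : Prop := ∀ (n : ℕ) (C : Finset (Fin n)) (r : Fin n → ℝ) (k : ℕ) (w : E n → ℝ)
  (K : Set (E n)) (φ : E n → ℂ) (j : Fin n), IsCompact K → (∀ z ∈ K, SmN w z) →
  (∀ z ∉ K, φ z = 0) → (∀ z ∈ K, Loc C r k z φ) → ∀ᶠ t : ℝ in atTop,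
    RI C w (dzb j φ) t + t * RI C w (fun z => φ z * dzb j (fun x => (lN C w x : ℂ)) z) t = 0

/-- The iterated Cauchy formula. -/
def St_CP : Prop := ∀ (n m : ℕ) (C I : Finset (Fin n)) (r : Fin n → ℝ) (P Q : Fin n → ℤ)
  (j : Fin m → Fin n) (g : E n → ℂ) (L : List (Fin n)), Function.Injective j →
  (∀ i, i ∈ Set.range j ↔ i ∉ I) → I ⊆ C → L.Nodup → L.toFinset = I →
  (∀ i ∈ I, r i = -1 ∧ P i = 0 ∧ Q i = 1) → (∀ i ∈ C, -2 < 2 * r i + P i + Q i) →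
  ContDiff ℝ ∞ g → HasCompactSupport g →
  ∫ z, mon C r P Q z * L.foldr (fun i h => dzb i h) g z =
    (-Real.pi : ℂ) ^ I.card * ∫ y : E m, mon (C \ I) r P Q (emb j y) * g (emb j y)

/-- The value on a stratum. -/
def St_AC2 : Prop := ∀ (n m : ℕ) (C I : Finset (Fin n)) (r : Fin n → ℝ) (P Q : Fin n → ℤ)
  (j : Fin m → Fin n) (w : E n → ℝ) (K : Set (E n)) (g : E n → ℂ), Function.Injective j →
  (∀ i, i ∈ Set.range j ↔ i ∉ I) → I ⊆ C → (∀ i ∈ I, r i = -1 ∧ P i = 0 ∧ Q i = 0) →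
  (∀ i ∈ C \ I, -2 < 2 * r i + P i + Q i) → IsCompact K → (∀ z ∈ K, SmN w z) →
  (∀ z ∉ K, g z = 0) → (∀ z ∈ K, SmN g z) →
  Integrable (fun y : E m => mon (C \ I) r P Q (emb j y) * g (emb j y)) ∧
  Val (fun t => (t : ℂ) ^ I.card * JM C w r P Q g t)
    ((Real.pi : ℂ) ^ I.card * ∫ y : E m, mon (C \ I) r P Q (emb j y) * g (emb j y))

end Pool.Agent.Lib.EXA
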