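import Pool.Agent.Lib.EXA.ABlue

/-! The value on a stratum. -/

open scoped Classical Topology ENNReal ContDiff ComplexConjugate
open Set MeasureTheory Complex Metric Filter

set_option linter.unusedVariables false

noncomputable section

namespace Pool.Agent.Lib.EXA

open Pool.Agent.Lib.SV (E)
open Pool.Agent.Lib.HS32

namespace AC2

variable {n : ℕ}

theorem cs_dzb {g : E n → ℂ} (h : HasCompactSupport g) (j : Fin n) :
    HasCompactSupport (dzb j g) := by
  refine HasCompactSupport.intro h fun z hz => ?_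
  have e : g =ᶠ[𝓝 z] fun _ => 0 := notMem_tsupport_iff_eventuallyEq.1 hz
  rw [dzb_congr e, dzb_const]

theorem cd_dzb' {g : E n → ℂ} (h : ContDiff ℝ ∞ g) (j : Fin n) : ContDiff ℝ ∞ (dzb j g) :=
  contDiff_iff_contDiffAt.2 fun z => cd_dzb h.contDiffAt j

theorem step (hV : St_VAL) (hL : St_LAP) (hM : St_MINT) (hI : St_IBP) (C : Finset (Fin n))
    (w : E n → ℝ) (hw : ContDiff ℝ ∞ w) (r : Fin n → ℝ) (P Q2 : Fin n → ℤ)
    (h2 : ∀ i ∈ C, -2 < 2 * r i + P i + Q2 i) (L : List (Fin n)) :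
    L.Nodup → ∀ (Q : Fin n → ℤ) (g : E n → ℂ), ContDiff ℝ ∞ g → HasCompactSupport g →
    (∀ i ∈ L, i ∈ C ∧ r i = -1 ∧ Q i = 0 ∧ Q2 i = 1) → (∀ i ∉ L, Q2 i = Q i) →
    Val (fun t => (t : ℂ) ^ L.length * JM C w r P Q g t)
      ((-1) ^ L.length * ∫ z, mon C r P Q2 z * L.reverse.foldr (fun i h => dzb i h) g z) := by
  obtain ⟨-, -, -, vc, va, vm, -, vt, -⟩ := hV
  obtain ⟨-, -, mi, mw⟩ := hM n C
  obtain ⟨ml, mb, -, -⟩ := mw w hw.continuous
  induction L with
  | nil =>
    intro _ Q g hg gc _ hQ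
    obtain rfl : Q2 = Q := funext fun i => hQ i (by simp)
    obtain ⟨M, hM⟩ := mb _ gc
    have := ((hL n (lN C w) (fun z => mon C r P Q2 z * g z) ml.aestronglyMeasurable).2
      (mi r P Q2 g hg.continuous gc h2)
      ⟨M, fun z hz => hM z (subset_tsupport _ (right_ne_zero_of_mul hz))⟩).2
    simpa [JM, RI, wt] using this
  | cons i L ih =>
    intro hN Q g hg gc hQ hQ'
    obtain ⟨hi, hN⟩ := List.nodup_cons.1 hN
    obtain ⟨iC, ri, Qi, Q2i⟩ := hQ i (by simp)
    have a1 : ∀ l ∈ L, l ∈ C ∧ r l = -1 ∧ Function.update Q i (Q i + 1) l = 0 ∧ Q2 l = 1 :=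
      fun l hl => by
        obtain ⟨b1, b2, b3, b4⟩ := hQ l (by simp [hl])
        have : l ≠ i := fun e => hi (e ▸ hl)
        exact ⟨b1, b2, by rw [Function.update_of_ne this, b3], b4⟩
    have a2 : ∀ l ∉ L, Q2 l = Function.update Q i (Q i + 1) l := fun l hl => by
      by_cases e : l = i
      · subst e; simp [Qi, Q2i]
      · rw [Function.update_of_ne e]; exact hQ' l (by simp [e, hl])
    have v1 := ih hN _ (dzb i g) (cd_dzb' hg i) (cs_dzb gc i) a1 a2
    have hw' : ContDiff ℝ ∞ fun y => (w y : ℂ) :=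
      contDiff_iff_contDiffAt.2 fun z => cd_ofReal hw.contDiffAt
    have v2 := ih hN _ (fun z => g z * dzb i (fun y => (w y : ℂ)) z) (hg.mul (cd_dzb' hw' i))
      gc.mul_right a1 a2
    have v3 := va _ _ _ _ (vm _ _ (-1) v1) (vt _ _ v2)
    simp only [List.length_cons, List.reverse_cons, List.foldr_append, List.foldr_cons,
      List.foldr_nil]
    rw [add_zero, ← mul_assoc, ← pow_succ'] at v3
    refine vc _ _ _ v3 ?_
    filter_upwards [(hI n C w r P Q g i hw hg gc).1 iC] with t ht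
    have e : ((r i : ℂ) + (Q i : ℂ) + 1) = 0 := by rw [ri, Qi]; simp
    rw [e, add_zero] at ht
    rw [pow_succ, mul_assoc, ht]
    ring

theorem emb_apply {m : ℕ} {j : Fin m → Fin n} (hj : Function.Injective j) (y : E m) (a : Fin m) :
    emb j y (j a) = y a := hj.extend_apply _ _ a

theorem emb_not {m : ℕ} {j : Fin m → Fin n} (y : E m) {i : Fin n} (hi : i ∉ Set.range j) :
    emb j y i = 0 := Function.extend_apply' _ _ _ hi

theorem emb_cont {m : ℕ} {j : Fin m → Fin n} (hj : Function.Injective j) :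
    Continuous (emb j : E m → E n) := by
  refine continuous_pi fun i => ?_
  by_cases hi : i ∈ Set.range j
  · obtain ⟨a, rfl⟩ := hi
    simpa only [emb_apply hj] using continuous_apply a
  · simpa only [emb_not _ hi] using continuous_const

theorem emb_closed {m : ℕ} {j : Fin m → Fin n} (hj : Function.Injective j) :
    Topology.IsClosedEmbedding (emb j : E m → E n) :=
  Function.LeftInverse.isClosedEmbedding (f := fun z : E n => fun a => z (j a))
    (fun y => funext fun a => emb_apply hj y a) (by fun_prop) (emb_cont hj)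

theorem mon_emb {m : ℕ} {j : Fin m → Fin n} (hj : Function.Injective j) (D : Finset (Fin n))
    (hD : ∀ i ∈ D, i ∈ Set.range j) (r : Fin n → ℝ) (P Q : Fin n → ℤ) (y : E m) :
    mon D r P Q (emb j y) =
      mon (Finset.univ.filter fun a => j a ∈ D) (r ∘ j) (P ∘ j) (Q ∘ j) y := by
  unfold mon
  symm
  refine Finset.prod_bij (fun a _ => j a) (fun a ha => by simpa using ha)
    (fun a _ b _ h => hj h) (fun i hi => ?_) fun a _ => by simp [emb_apply hj]
  obtain ⟨a, rfl⟩ := hD i hi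
  exact ⟨a, by simpa using hi, rfl⟩

end AC2

open AC2 in
theorem bAC2 (hV : St_VAL) (hL : St_LAP) (hM : St_MINT) (hI : St_IBP) (hG : St_GLOB)
    (hC : St_CP) : St_AC2 := by
  intro n m C I r P Q j w K g hj hr hIC hI0 hCI hK hw hg0 hg
  obtain ⟨-, g1, g2⟩ := hG n K hK
  obtain ⟨w', hw', e'⟩ := g1 w hw
  obtain ⟨gs, gc⟩ := g2 g hg0 hg
  have hD : ∀ i ∈ C \ I, i ∈ Set.range j := fun i hi => (hr i).2 (Finset.mem_sdiff.1 hi).2
  refine ⟨?_, ?_⟩
  · simp only [mon_emb hj _ hD]
    exact (hM m _).2.2.1 _ _ _ (g ∘ emb j) (gs.continuous.comp (emb_cont hj))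
      (gc.comp_isClosedEmbedding (emb_closed hj)) fun a ha => hCI _ (by simpa using ha)
  set Q2 : Fin n → ℤ := fun i => if i ∈ I then 1 else Q i with hQ2
  have h2 : ∀ i ∈ C, -2 < 2 * r i + P i + Q2 i := fun i hi => by
    by_cases h : i ∈ I
    · obtain ⟨a, b, -⟩ := hI0 i h
      simp only [hQ2, if_pos h, a, b]; norm_num
    · simp only [hQ2, if_neg h]; exact hCI i (Finset.mem_sdiff.2 ⟨hi, h⟩)
  have v := step hV hL hM hI C w' hw' r P Q2 h2 I.toList (Finset.nodup_toList I) Q g gs gc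
    (fun i hi => by
      have hi := Finset.mem_toList.1 hi
      exact ⟨hIC hi, (hI0 i hi).1, (hI0 i hi).2.2, by simp [hQ2, hi]⟩)
    (fun i hi => by
      have hi : i ∉ I := fun h => hi (Finset.mem_toList.2 h)
      simp [hQ2, hi])
  rw [hC n m C I r P Q2 j g I.toList.reverse hj hr hIC
    (List.nodup_reverse.2 (Finset.nodup_toList I)) (by ext; simp)
    (fun i hi => ⟨(hI0 i hi).1, (hI0 i hi).2.1, by simp [hQ2, hi]⟩) h2 gs gc,
    Finset.length_toList, ← mul_assoc, ← mul_pow, neg_mul_neg, one_mul] at v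
  have e : ∀ y, mon (C \ I) r P Q2 y = mon (C \ I) r P Q y := fun y =>
    Finset.prod_congr rfl fun i hi => by simp [hQ2, (Finset.mem_sdiff.1 hi).2]
  simp only [e] at v
  refine hV.2.2.2.1 _ _ _ v (Eventually.of_forall fun t => ?_)
  congr 1
  refine integral_congr_ae (Eventually.of_forall fun z => ?_)
  by_cases hz : z ∈ K
  · simp only [wt, lN, (e' z hz).eq_of_nhds]
  · simp [hg0 z hz]

end Pool.Agent.Lib.EXA
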