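import Pool.Agent.Lib.EXA.B_VAL

/-! Continuation of the regularised integral of one monomial. -/

open scoped Classical Topology ContDiff
open Set MeasureTheory Complex Metric Filter

noncomputable section

namespace Pool.Agent.Lib.EXA

open Pool.Agent.Lib.SV (E)
open Pool.Agent.Lib.HS32

namespace ACM

variable {n : ℕ} {C : Finset (Fin n)} {r : Fin n → ℝ} {P Q : Fin n → ℤ} {j : Fin n}

/-- The number of missing steps. -/
def ms (C : Finset (Fin n)) (r : Fin n → ℝ) (P Q : Fin n → ℤ) : ℕ :=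
  ∑ i ∈ C, (⌊-(2 * r i + P i + Q i) - 2⌋ + 1).toNat

theorem ms_lt (hj : j ∈ C) (h : 2 * r j + P j + Q j ≤ -2) :
    ms C r P (Function.update Q j (Q j + 1)) < ms C r P Q := by
  have k : (⌊-(2 * r j + P j + (Function.update Q j (Q j + 1) j : ℤ)) - 2⌋ + 1).toNat <
      (⌊-(2 * r j + P j + Q j) - 2⌋ + 1).toNat := by
    have h0 : 0 ≤ ⌊-(2 * r j + P j + Q j) - 2⌋ := Int.floor_nonneg.2 (by linarith)
    rw [Function.update_self, show -(2 * r j + P j + ((Q j + 1 : ℤ) : ℝ)) - 2 =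
      (-(2 * r j + P j + Q j) - 2) - 1 by push_cast; ring, Int.floor_sub_one]
    omega
  refine Finset.sum_lt_sum (fun i _ => ?_) ⟨j, hj, k⟩
  rcases eq_or_ne i j with rfl | hne
  · exact k.le
  · rw [Function.update_of_ne hne]

theorem sub_bad : (C.filter fun i => BadC (r i) (P i) (Function.update Q j (Q j + 1) i)) ⊆
    C.filter fun i => BadC (r i) (P i) (Q i) := fun i hi => by
  rw [Finset.mem_filter] at hi ⊢
  refine ⟨hi.1, ?_⟩
  rcases eq_or_ne i j with rfl | hne
  · obtain ⟨⟨k, hk⟩, h2⟩ := hi.2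
    rw [Function.update_self] at hk
    exact ⟨⟨k + 1, by push_cast at hk ⊢; linarith⟩, h2⟩
  · simpa only [Function.update_of_ne hne] using hi.2

theorem bad_le : bad C r P (Function.update Q j (Q j + 1)) ≤ bad C r P Q :=
  Finset.card_le_card sub_bad

theorem bad_lt (hj : j ∈ C) (h : 2 * r j + P j + Q j ≤ -2) (h0 : r j + Q j + 1 = 0) :
    bad C r P (Function.update Q j (Q j + 1)) < bad C r P Q := by
  refine Finset.card_lt_card ⟨sub_bad, fun hs => ?_⟩
  have := hs (Finset.mem_filter.2 ⟨hj, ⟨0, by simpa using h0⟩, by linarith⟩)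
  obtain ⟨-, ⟨k, hk⟩, -⟩ := Finset.mem_filter.1 this
  rw [Function.update_self] at hk
  push_cast at hk
  linarith [(Nat.cast_nonneg k : (0 : ℝ) ≤ k)]

end ACM

open ACM in
theorem bACM (hL : St_LAP) (hM : St_MINT) (hI : St_IBP) : St_ACM := by
  intro n C w r P Q g m hw
  induction hN : ms C r P Q using Nat.strong_induction_on generalizing Q g m with
  | _ N ih =>
  intro hg hc hb
  by_cases h : ∀ i ∈ C, -2 < 2 * r i + P i + Q i
  · obtain ⟨-, -, m1, m2⟩ := hM n C
    obtain ⟨m3, m4, -⟩ := m2 w hw.continuous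
    obtain ⟨M, hM'⟩ := m4 _ hc
    have := ((hL n (lN C w) (fun z => mon C r P Q z * g z) m3.aestronglyMeasurable).2
      (m1 r P Q g hg.continuous hc h)
      ⟨M, fun z hz => hM' z (subset_tsupport _ (right_ne_zero_of_mul hz))⟩).2
    exact ⟨_, this.mul_ent (c := fun μ => μ ^ m) (differentiable_id.pow m)⟩
  · push Not at h
    obtain ⟨j, hj, h⟩ := h
    have lt := ms_lt hj h
    rw [hN] at lt
    have g1 : ContDiff ℝ ∞ (dzb j g) := contDiff_iff_contDiffAt.2 fun z => cd_dzb hg.contDiffAt j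
    have c1 : HasCompactSupport (dzb j g) := hc.mono' fun z hz => by
      by_contra hn
      exact hz ((dzb_congr (notMem_tsupport_iff_eventuallyEq.1 hn)).trans (dzb_const 0))
    have g2 : ContDiff ℝ ∞ fun z => g z * dzb j (fun y => (w y : ℂ)) z :=
      hg.mul (contDiff_iff_contDiffAt.2 fun z => cd_dzb (cd_ofReal hw.contDiffAt) j)
    have c2 : HasCompactSupport fun z => g z * dzb j (fun y => (w y : ℂ)) z := hc.mul_right
    have e := (hI n C w r P Q g j hw hg hc).1 hj
    by_cases h0 : r j + Q j + 1 = 0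
    · obtain ⟨m, rfl⟩ : ∃ k, m = k + 1 := ⟨m - 1, by have := bad_lt hj h h0; omega⟩
      have hb' := Nat.lt_succ_iff.1 ((bad_lt hj h h0).trans_le hb)
      obtain ⟨v1, h1⟩ := ih _ lt _ _ m rfl g1 c1 hb'
      obtain ⟨v2, h2⟩ := ih _ lt _ _ m rfl g2 c2 hb'
      refine ⟨_, (h1.neg.add h2.mul_id).congr (e.mono fun t ht => ?_)⟩
      have h0' : ((r j : ℂ) + Q j + 1) = 0 := by exact_mod_cast h0
      rw [h0', add_zero] at ht
      beta_reduce
      rw [pow_succ, mul_assoc, ht]; ring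
    · obtain ⟨v1, h1⟩ := ih _ lt _ _ m rfl g1 c1 (bad_le.trans hb)
      obtain ⟨v2, h2⟩ := ih _ lt _ _ m rfl g2 c2 (bad_le.trans hb)
      have h0' : ((r j : ℂ) + Q j + 1) ≠ 0 := by exact_mod_cast h0
      refine ⟨_, Val.of_add_mul h0' ((h1.neg.add h2.mul_id).congr (e.mono fun t ht => ?_))⟩
      beta_reduce
      rw [mul_left_comm, ht]; ring

end Pool.Agent.Lib.EXA
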