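import Pool.Agent.Lib.EXA.ABlue
import Pool.Agent.Lib.MP_9cdd18_an.CXPompeiu

/-! The iterated formula of Cauchy and Pompeiu. -/

open scoped Classical Topology ContDiff
open Set MeasureTheory Complex Metric Filter Function

noncomputable section

namespace Pool.Agent.Lib.EXA

open Pool.Agent.Lib.SV (E)
open Pool.Agent.Lib.HS32 Pool.Agent.Lib.MP_9cdd18_an.CX

namespace CP

variable {n m : ℕ} {C : Finset (Fin n)} {r : Fin n → ℝ} {P Q : Fin n → ℤ} {j : Fin m → Fin n}

theorem emb_app (hj : Injective j) (y : E m) (b : Fin m) : emb j y (j b) = y b :=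
  hj.extend_apply _ _ _

theorem emb_off (y : E m) {i : Fin n} (hi : i ∉ range j) : emb j y i = 0 :=
  extend_apply' _ _ _ hi

theorem emb_cont (hj : Injective j) : Continuous (emb j : E m → E n) := continuous_pi fun i => by
  by_cases hi : i ∈ range j
  · obtain ⟨b, rfl⟩ := hi
    simpa only [emb_app hj] using continuous_apply b
  · simpa only [emb_off _ hi] using continuous_const

theorem emb_cpt (hj : Injective j) {g : E n → ℂ} (hg : HasCompactSupport g) :
    HasCompactSupport fun y : E m => g (emb j y) :=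
  hg.comp_isClosedEmbedding (LeftInverse.isClosedEmbedding (f := fun z : E n => z ∘ j)
    (fun y => funext (emb_app hj y)) (by fun_prop) (emb_cont hj))

theorem mon_emb (hj : Injective j) (hC : ∀ i ∈ C, i ∈ range j) (y : E m) :
    mon C r P Q (emb j y) =
      mon (Finset.univ.filter fun b => j b ∈ C) (r ∘ j) (P ∘ j) (Q ∘ j) y := by
  refine (Finset.prod_bij (fun b _ => j b) (fun b hb => (Finset.mem_filter.1 hb).2)
    (fun a _ b _ h => hj h) (fun i hi => ?_) fun b _ => ?_).symm
  · obtain ⟨b, rfl⟩ := hC i hi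
    exact ⟨b, Finset.mem_filter.2 ⟨Finset.mem_univ _, hi⟩, rfl⟩
  · simp only [emb_app hj, comp_apply]

theorem int_emb (hM : St_MINT) (hj : Injective j) (hC : ∀ i ∈ C, i ∈ range j)
    (hi : ∀ i ∈ C, -2 < 2 * r i + P i + Q i) {g : E n → ℂ} (hg : Continuous g)
    (hc : HasCompactSupport g) : Integrable fun y : E m => mon C r P Q (emb j y) * g (emb j y) := by
  simp only [mon_emb hj hC]
  exact (hM m _).2.2.1 _ _ _ _ (hg.comp (emb_cont hj)) (emb_cpt hj hc)
    fun b hb => hi _ (Finset.mem_filter.1 hb).2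

theorem sm_dzb {g : E n → ℂ} (hg : ContDiff ℝ ∞ g) (i : Fin n) : ContDiff ℝ ∞ (dzb i g) :=
  contDiff_iff_contDiffAt.2 fun _ => cd_dzb hg.contDiffAt i

theorem cpt_dzb {g : E n → ℂ} (hc : HasCompactSupport g) (i : Fin n) :
    HasCompactSupport (dzb i g) := hc.mono' fun z hz => by
  by_contra hn
  exact hz ((dzb_congr (notMem_tsupport_iff_eventuallyEq.1 hn)).trans (dzb_const 0))

theorem one {g : E n → ℂ} (hg : ContDiff ℝ ∞ g) (hc : HasCompactSupport g) (z : E n) (i : Fin n) :
    ∫ x : ℂ, x⁻¹ * dzb i g (z + Pi.single i x) = -Real.pi * g z := by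
  let l : ℂ →L[ℝ] E n := ContinuousLinearMap.single ℝ (fun _ : Fin n => ℂ) i
  have hd : ∀ x : ℂ, HasFDerivAt (fun x : ℂ => g (z + Pi.single i x))
      ((fderiv ℝ g (z + Pi.single i x)).comp l) x := fun x =>
    (cd_diff hg.contDiffAt).hasFDerivAt.comp x (l.hasFDerivAt.const_add z)
  have k := pompeiu_aux (g := fun x : ℂ => g (z + Pi.single i x))
    ((hg.of_le (by simp)).comp (contDiff_const.add l.contDiff))
    (hc.comp_isClosedEmbedding (LeftInverse.isClosedEmbedding (f := fun w : E n => w i - z i)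
      (fun x => by simp) (by fun_prop) (continuous_const.add l.continuous))) 0
  have e : ∀ x : ℂ, x⁻¹ * dzb i g (z + Pi.single i x) =
      2⁻¹ * (dbar (fun x : ℂ => g (z + Pi.single i x)) x / (x - 0)) := fun x => by
    simp only [dbar, dzb, (hd x).fderiv, ContinuousLinearMap.comp_apply, l,
      ContinuousLinearMap.single_apply, sub_zero]
    ring
  simp only [e, integral_const_mul, k, Pi.single_zero, add_zero]
  ring

theorem step (hM : St_MINT) {j : Fin (m + 1) → Fin n} (hj : Injective j) (a : Fin (m + 1))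
    (hC : ∀ i ∈ C, i ∈ range j) (ha : j a ∈ C) (h1 : r (j a) = -1 ∧ P (j a) = 0 ∧ Q (j a) = 1)
    (hi : ∀ i ∈ C, -2 < 2 * r i + P i + Q i) {g : E n → ℂ} (hg : ContDiff ℝ ∞ g)
    (hc : HasCompactSupport g) :
    ∫ y : E (m + 1), mon C r P Q (emb j y) * dzb (j a) g (emb j y) =
      -Real.pi * ∫ y : E m, mon (C.erase (j a)) r P Q (emb (j ∘ a.succAbove) y) *
        g (emb (j ∘ a.succAbove) y) := by
  have hj' : Injective (j ∘ a.succAbove) := hj.comp Fin.succAbove_right_injective
  have na : j a ∉ range (j ∘ a.succAbove) := fun ⟨b, hb⟩ => a.succAbove_ne b (hj hb)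
  have e1 : ∀ (x : ℂ) (y : E m), emb j (a.insertNth x y) =
      emb (j ∘ a.succAbove) y + Pi.single (j a) x := fun x y => funext fun i => by
    by_cases h : i ∈ range j
    · obtain ⟨b, rfl⟩ := h
      rw [emb_app hj, Pi.add_apply]
      rcases Fin.eq_self_or_eq_succAbove a b with rfl | ⟨b, rfl⟩
      · rw [emb_off _ na]; simp
      · rw [Pi.single_eq_of_ne (hj.ne (a.succAbove_ne b)), add_zero, Fin.insertNth_apply_succAbove]
        exact (emb_app hj' y b).symm
    · rw [emb_off _ h, Pi.add_apply, emb_off _ fun ⟨b, hb⟩ => h ⟨_, hb⟩,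
        Pi.single_eq_of_ne fun e => h ⟨a, e.symm⟩, add_zero]
  have e2 : ∀ (x : ℂ) (y : E m), mon C r P Q (emb (j ∘ a.succAbove) y + Pi.single (j a) x) =
      mon (C.erase (j a)) r P Q (emb (j ∘ a.succAbove) y) * x⁻¹ := fun x y => by
    rw [mon, ← Finset.prod_erase_mul _ _ ha]
    refine congrArg₂ _ (Finset.prod_congr rfl fun i hi => ?_) ?_
    · rw [Pi.add_apply, Pi.single_eq_of_ne (Finset.ne_of_mem_erase hi), add_zero]
    · rw [Pi.add_apply, emb_off _ na, Pi.single_eq_same, zero_add, h1.1, h1.2.1, h1.2.2,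
        Real.rpow_neg_one, zpow_zero, zpow_one, mul_one, Complex.inv_def, mul_comm]
      rfl
  have mp := (volume_preserving_piFinSuccAbove (fun _ : Fin (m + 1) => ℂ) a).symm
  have it := (mp.integrable_comp_emb (MeasurableEquiv.measurableEmbedding _)).2
    (int_emb hM hj hC hi (sm_dzb hg (j a)).continuous (cpt_dzb hc (j a)))
  rw [← mp.integral_comp', ← integral_const_mul]
  refine (integral_prod_symm _ it).trans (integral_congr_ae (Eventually.of_forall fun y => ?_))
  change ∫ x : ℂ, mon C r P Q (emb j (a.insertNth x y)) * dzb (j a) g (emb j (a.insertNth x y)) = _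
  simp only [e1, e2, mul_assoc, integral_const_mul, one hg hc]
  ring

theorem reindex {m' : ℕ} {j' : Fin m' → Fin n} (hj : Injective j) (hj' : Injective j')
    (h : range j = range j') (F : E n → ℂ) : ∫ y, F (emb j' y) = ∫ y, F (emb j y) := by
  let e : Fin m ≃ Fin m' :=
    (Equiv.ofInjective j hj).trans ((Equiv.setCongr h).trans (Equiv.ofInjective j' hj').symm)
  have he : ∀ b, j' (e b) = j b := fun b => Equiv.apply_ofInjective_symm hj' _
  rw [← (volume_measurePreserving_piCongrLeft (fun _ : Fin m' => ℂ) e).integral_comp']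
  refine integral_congr_ae (Eventually.of_forall fun y => congrArg F (funext fun i => ?_))
  by_cases hi : i ∈ range j
  · obtain ⟨b, rfl⟩ := hi
    rw [emb_app hj, ← he, emb_app hj', MeasurableEquiv.piCongrLeft_apply_apply]
  · rw [emb_off _ hi, emb_off _ (h ▸ hi)]

theorem sm_fold {g : E n → ℂ} (hg : ContDiff ℝ ∞ g) (hc : HasCompactSupport g) (L : List (Fin n)) :
    ContDiff ℝ ∞ (L.foldr (fun i h => dzb i h) g) ∧
      HasCompactSupport (L.foldr (fun i h => dzb i h) g) := by
  induction L with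
  | nil => exact ⟨hg, hc⟩
  | cons i L ih => exact ⟨sm_dzb ih.1 i, cpt_dzb ih.2 i⟩

theorem iter (hM : St_MINT) (hj : Injective j) {g : E n → ℂ} (hg : ContDiff ℝ ∞ g)
    (hc : HasCompactSupport g) (L : List (Fin n)) : ∀ (C : Finset (Fin n)) (k : ℕ)
    (j₀ : Fin k → Fin n), Injective j₀ → (∀ i ∈ C, i ∈ range j₀) →
    (∀ i, i ∈ range j ↔ i ∈ range j₀ ∧ i ∉ L) → (∀ i ∈ L, i ∈ C) → L.Nodup →
    (∀ i ∈ L, r i = -1 ∧ P i = 0 ∧ Q i = 1) → (∀ i ∈ C, -2 < 2 * r i + P i + Q i) →
    ∫ y, mon C r P Q (emb j₀ y) * L.foldr (fun i h => dzb i h) g (emb j₀ y) =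
      (-Real.pi : ℂ) ^ L.length * ∫ y, mon (C \ L.toFinset) r P Q (emb j y) * g (emb j y) := by
  induction L with
  | nil =>
    intro C k j₀ h0 _ h2 _ _ _ _
    simpa using reindex hj h0 (Set.ext fun i => by simpa using h2 i) fun z => mon C r P Q z * g z
  | cons i L ih =>
    intro C k j₀ h0 h1 h2 h3 h4 h5 h6
    obtain ⟨a, rfl⟩ := h1 i (h3 i List.mem_cons_self)
    obtain ⟨k, rfl⟩ : ∃ k', k = k' + 1 := ⟨k - 1, by have := a.pos; omega⟩
    have rg : ∀ i, i ∈ range (j₀ ∘ a.succAbove) ↔ i ∈ range j₀ ∧ i ≠ j₀ a := fun i => by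
      refine ⟨fun ⟨b, hb⟩ => ⟨⟨_, hb⟩, hb ▸ h0.ne (a.succAbove_ne b)⟩, fun ⟨⟨b, hb⟩, hn⟩ => ?_⟩
      obtain ⟨c, rfl⟩ := Fin.exists_succAbove_eq (show b ≠ a from fun e => hn (by rw [← hb, e]))
      exact ⟨c, hb⟩
    rw [List.nodup_cons] at h4
    rw [List.foldr_cons, step hM h0 a h1 (h3 _ List.mem_cons_self) (h5 _ List.mem_cons_self) h6
      (sm_fold hg hc L).1 (sm_fold hg hc L).2,
      ih _ _ _ (h0.comp Fin.succAbove_right_injective)
        (fun i hi => (rg i).2 ⟨h1 i (Finset.mem_of_mem_erase hi), Finset.ne_of_mem_erase hi⟩)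
        (fun i => by rw [h2, rg, List.mem_cons, not_or, and_assoc])
        (fun i hi => Finset.mem_erase.2 ⟨fun e => h4.1 (e ▸ hi), h3 i (List.mem_cons_of_mem _ hi)⟩)
        h4.2 (fun i hi => h5 i (List.mem_cons_of_mem _ hi))
        fun i hi => h6 i (Finset.mem_of_mem_erase hi),
      List.toFinset_cons, Finset.sdiff_insert, Finset.erase_sdiff_comm, List.length_cons]
    ring

end CP

theorem bCP (hM : St_MINT) : St_CP := by
  intro n m C I r P Q j g L hj h1 h2 h3 h4 h5 h6 hg hc
  subst h4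
  have := CP.iter (r := r) (P := P) (Q := Q) hM hj hg hc L C n id injective_id
    (fun i _ => ⟨i, rfl⟩) (fun i => by simpa using h1 i) (fun i hi => h2 (List.mem_toFinset.2 hi))
    h3 (fun i hi => h5 i (List.mem_toFinset.2 hi)) h6
  rw [List.toFinset_card_of_nodup h3, ← this]
  refine integral_congr_ae (Eventually.of_forall fun y => ?_)
  have : emb id y = y := funext (CP.emb_app injective_id y)
  simp only [this]

end Pool.Agent.Lib.EXA
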