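import Pool.Agent.Lib.HS32.B_IBPE

/-! Monomials with a large real power of the modulus are continuously differentiable. -/

open scoped Classical Topology ENNReal ContDiff
open Set MeasureTheory Complex Metric Filter

noncomputable section

namespace Pool.Agent.Lib.EXA.K71

open Pool.Agent.Lib.SV (E)
open Pool.Agent.Lib.HS32

/-- One factor. -/
theorem one_c1 (s : ℝ) (P Q : ℤ) (h : 1 + |(P : ℝ)| + |(Q : ℝ)| ≤ s) :
    ∃ φ : ℂ → ℂ, ContDiff ℝ 1 φ ∧
      ∀ ζ, ζ ≠ 0 → φ ζ = ((normSq ζ ^ s : ℝ) : ℂ) * ζ ^ P * (star ζ) ^ Q := by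
  set N : ℕ := P.natAbs + Q.natAbs with hN
  have hP : 0 ≤ P + N := by omega
  have hQ : 0 ≤ Q + N := by omega
  have hs : ((1 : ℕ) : ℝ) ≤ s - N := by
    have e1 : ((P.natAbs : ℕ) : ℝ) = |(P : ℝ)| := by
      rw [Nat.cast_natAbs, Int.cast_abs]
    have e2 : ((Q.natAbs : ℕ) : ℝ) = |(Q : ℝ)| := by
      rw [Nat.cast_natAbs, Int.cast_abs]
    rw [hN]; push_cast; rw [e1, e2]; linarith
  have ns : ContDiff ℝ 1 fun ζ : ℂ => normSq ζ := by
    have : (fun ζ : ℂ => normSq ζ) = fun ζ => reCLM ζ * reCLM ζ + imCLM ζ * imCLM ζ := by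
      funext ζ; simp [normSq_apply]
    rw [this]; fun_prop
  have st : ContDiff ℝ 1 fun ζ : ℂ => star ζ := conjCLE.contDiff
  refine ⟨fun ζ => ((normSq ζ ^ (s - N) : ℝ) : ℂ) * ζ ^ (P + N).toNat * (star ζ) ^ (Q + N).toNat,
    ((ofRealCLM.contDiff.comp ((Real.contDiff_rpow_const_of_le hs).comp ns)).mul
      (contDiff_id.pow _)).mul (st.pow _), fun ζ h0 => ?_⟩
  have n0 : 0 < normSq ζ := normSq_pos.2 h0
  have s0 : star ζ ≠ 0 := star_ne_zero.2 h0
  have e3 : ζ ^ (P + N).toNat = ζ ^ P * ζ ^ N := by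
    rw [← zpow_natCast, Int.toNat_of_nonneg hP, zpow_add₀ h0, zpow_natCast]
  have e4 : (star ζ) ^ (Q + N).toNat = (star ζ) ^ Q * (star ζ) ^ N := by
    rw [← zpow_natCast, Int.toNat_of_nonneg hQ, zpow_add₀ s0, zpow_natCast]
  have e5 : ((normSq ζ ^ s : ℝ) : ℂ) = ((normSq ζ ^ (s - N) : ℝ) : ℂ) * (ζ ^ N * (star ζ) ^ N) := by
    rw [← mul_pow, show ζ * star ζ = (normSq ζ : ℂ) from mul_conj ζ, ← ofReal_pow, ← ofReal_mul,
      ← Real.rpow_natCast, ← Real.rpow_add n0, sub_add_cancel]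
  simp only [e3, e4, e5]; ring

/-- The divergence theorem for a continuously differentiable function with compact support. -/
theorem int_dzb {n : ℕ} {g : E n → ℂ} (gs : ContDiff ℝ 1 g) (gc : HasCompactSupport g)
    (j : Fin n) : Integrable (dzb j g) ∧ ∫ z, dzb j g z = 0 := by
  have key : ∀ v : E n, Integrable (fun z => fderiv ℝ g z v) ∧ ∫ z, fderiv ℝ g z v = 0 := by
    intro v
    have dc : Continuous fun z => fderiv ℝ g z v :=
      (gs.continuous_fderiv one_ne_zero).clm_apply continuous_const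
    have di : Integrable fun z => fderiv ℝ g z v :=
      dc.integrable_of_hasCompactSupport (gc.fderiv_apply ℝ v)
    have := integral_mul_fderiv_eq_neg_fderiv_mul_of_integrable (μ := volume)
      (f := fun _ : E n => (1 : ℂ)) (g := g) (v := v) (by simp) (by simpa using di)
      (by simpa using gs.continuous.integrable_of_hasCompactSupport gc)
      (fun _ _ => differentiableAt_const _) (fun z _ => gs.differentiable one_ne_zero z)
    exact ⟨di, by simpa using this⟩
  obtain ⟨a1, b1⟩ := key (Pi.single j 1)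
  obtain ⟨a2, b2⟩ := key (Pi.single j I)
  refine ⟨(a1.add (a2.const_mul I)).div_const 2, ?_⟩
  simp only [dzb]
  rw [integral_div, integral_add a1 (a2.const_mul I), integral_const_mul, b1, b2]
  simp

/-- Coordinate hyperplanes are null. -/
theorem ae_ne {n : ℕ} : ∀ᵐ z : E n, ∀ i, z i ≠ 0 := by
  rw [ae_all_iff]
  intro i
  exact Measure.ae_eval_ne (fun _ : Fin n => (volume : Measure ℂ)) i 0

/-- One factor of a monomial. -/
def fac (s : ℝ) (P Q : ℤ) (ζ : ℂ) : ℂ := ((normSq ζ ^ s : ℝ) : ℂ) * ζ ^ P * (star ζ) ^ Q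

theorem fac_pred (s : ℝ) (P Q : ℤ) {ζ : ℂ} (h : ζ ≠ 0) :
    fac s P (Q - 1) ζ = fac s P Q ζ * (star ζ)⁻¹ := by
  rw [fac, fac, zpow_sub_one₀ (star_ne_zero.2 h), mul_assoc _ (star ζ ^ Q)]

/-- The conjugate derivative of one factor. -/
theorem dzb_fac {n : ℕ} (s : ℝ) (P Q : ℤ) (i j : Fin n) {z : E n} (h : z i ≠ 0) :
    DifferentiableAt ℝ (fun w : E n => fac s P Q (w i)) z ∧
      dzb j (fun w : E n => fac s P Q (w i)) z =
        if i = j then ((s : ℂ) + Q) * (star (z i))⁻¹ * fac s P Q (z i) else 0 := by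
  have n0 : 0 < normSq (z i) := normSq_pos.2 h
  have s0 : star (z i) ≠ 0 := star_ne_zero.2 h
  have d0 : DifferentiableAt ℝ (fun w : E n => w i) z := differentiableAt_apply i z
  have d1 : DifferentiableAt ℝ (fun w : E n => star (w i)) z := diff_star d0
  have en : (fun w : E n => (normSq (w i) : ℂ)) = fun w => w i * star (w i) :=
    funext fun w => (mul_conj (w i)).symm
  have d2 : DifferentiableAt ℝ (fun w : E n => normSq (w i)) z := by
    have : (fun w : E n => normSq (w i)) = fun w => reCLM (w i * star (w i)) := by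
      funext w; rw [← congrFun en w]; simp
    rw [this]; exact reCLM.differentiableAt.comp z (d0.mul d1)
  have h1 := Real.hasDerivAt_rpow_const (x := normSq (z i)) (p := s) (Or.inl n0.ne')
  have h2 := hasDerivAt_zpow P (z i) (Or.inl h)
  have h3 := hasDerivAt_zpow Q (star (z i)) (Or.inl s0)
  have a1 : DifferentiableAt ℝ (fun w : E n => ((normSq (w i) ^ s : ℝ) : ℂ)) z :=
    ofRealCLM.differentiableAt.comp z (d2.rpow_const (Or.inl n0.ne'))
  have a2 : DifferentiableAt ℝ (fun w : E n => w i ^ P) z :=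
    DifferentiableAt.comp (g := fun x : ℂ => x ^ P) z (h2.differentiableAt.restrictScalars ℝ) d0
  have a3 : DifferentiableAt ℝ (fun w : E n => star (w i) ^ Q) z :=
    DifferentiableAt.comp (g := fun x : ℂ => x ^ Q) z (h3.differentiableAt.restrictScalars ℝ) d1
  refine ⟨(a1.mul a2).mul a3, ?_⟩
  have b0 : dzb j (fun w : E n => star (w i)) z = if i = j then 1 else 0 := by
    rw [dzb_star d0, dz_coord]; split_ifs <;> simp
  have b1 := dzb_comp_real (j := j) (u := fun w : E n => normSq (w i)) (φ := fun x => x ^ s) h1 d2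
  rw [en, dzb_mul d0 d1, dzb_coord, b0] at b1
  have b2 := dzb_comp (j := j) (f := fun w : E n => w i) (φ := fun x => x ^ P) h2 d0
  rw [dzb_coord] at b2
  have b3 := dzb_comp (j := j) (f := fun w : E n => star (w i)) (φ := fun x => x ^ Q) h3 d1
  rw [b0] at b3
  simp only [fac]
  rw [dzb_mul (a1.fun_mul a2) a3, dzb_mul a1 a2, b1, b2, b3]
  split_ifs
  · have e1 : ((normSq (z i) ^ s : ℝ) : ℂ) =
        ((normSq (z i) ^ (s - 1) : ℝ) : ℂ) * (z i * star (z i)) := by
      rw [← congrFun en z, ← ofReal_mul, Real.rpow_sub_one n0.ne', div_mul_cancel₀ _ n0.ne']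
    rw [zpow_sub_one₀ s0, e1]
    push_cast
    field_simp
    ring
  · simp

/-- The conjugate derivative of a monomial. -/
theorem dzb_prod {n : ℕ} (C : Finset (Fin n)) (s : Fin n → ℝ) (P Q : Fin n → ℤ) (j : Fin n)
    {z : E n} (h : ∀ i ∈ C, z i ≠ 0) :
    DifferentiableAt ℝ (fun w : E n => ∏ i ∈ C, fac (s i) (P i) (Q i) (w i)) z ∧
      dzb j (fun w : E n => ∏ i ∈ C, fac (s i) (P i) (Q i) (w i)) z =
        (if j ∈ C then ((s j : ℂ) + Q j) * (star (z j))⁻¹ else 0) *
          ∏ i ∈ C, fac (s i) (P i) (Q i) (z i) := by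
  induction C using Finset.induction_on with
  | empty => simp
  | insert a C ha ih =>
    obtain ⟨i1, i2⟩ := ih fun i hi => h i (Finset.mem_insert_of_mem hi)
    obtain ⟨f1, f2⟩ := dzb_fac (s a) (P a) (Q a) a j (h a (Finset.mem_insert_self a C))
    simp only [Finset.prod_insert ha]
    refine ⟨f1.mul i1, ?_⟩
    rw [dzb_mul f1 i1, i2, f2]
    by_cases e : a = j
    · subst e; simp [ha]; ring
    · have e' : ¬ j = a := fun x => e x.symm
      simp [e, e']; split_ifs
      · ring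
      · simp

/-- A monomial with large real exponents agrees off the hyperplanes with a `C¹` function. -/
theorem prod_c1 {n : ℕ} (C : Finset (Fin n)) (s : Fin n → ℝ) (P Q : Fin n → ℤ)
    (h : ∀ i ∈ C, 1 + |(P i : ℝ)| + |(Q i : ℝ)| ≤ s i) :
    ∃ Φ : E n → ℂ, ContDiff ℝ 1 Φ ∧
      ∀ z, (∀ i ∈ C, z i ≠ 0) → Φ z = ∏ i ∈ C, fac (s i) (P i) (Q i) (z i) := by
  have : ∀ i, ∃ φ : ℂ → ℂ, ContDiff ℝ 1 φ ∧
      (i ∈ C → ∀ ζ, ζ ≠ 0 → φ ζ = fac (s i) (P i) (Q i) ζ) := fun i => by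
    by_cases hi : i ∈ C
    · obtain ⟨φ, a, b⟩ := one_c1 (s i) (P i) (Q i) (h i hi)
      exact ⟨φ, a, fun _ => b⟩
    · exact ⟨fun _ => 0, contDiff_const, fun x => (hi x).elim⟩
  choose φ h1 h2 using this
  exact ⟨fun z => ∏ i ∈ C, φ i (z i),
    contDiff_prod fun i _ => (h1 i).comp (contDiff_apply ℝ ℂ i),
    fun z hz => Finset.prod_congr rfl fun i hi => h2 i hi _ (hz i hi)⟩

/-- Integration by parts against a monomial with large real exponents. -/
theorem ibp {n : ℕ} (C : Finset (Fin n)) (s : Fin n → ℝ) (P Q : Fin n → ℤ)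
    (h : ∀ i ∈ C, 1 + |(P i : ℝ)| + |(Q i : ℝ)| ≤ s i) {g : E n → ℂ} (gs : ContDiff ℝ 1 g)
    (gc : HasCompactSupport g) (j : Fin n) :
    Integrable (fun z : E n => (∏ i ∈ C, fac (s i) (P i) (Q i) (z i)) * dzb j g z) ∧
    Integrable (fun z : E n => (if j ∈ C then ((s j : ℂ) + Q j) * (star (z j))⁻¹ else 0) *
      (∏ i ∈ C, fac (s i) (P i) (Q i) (z i)) * g z) ∧
    ∫ z : E n, (if j ∈ C then ((s j : ℂ) + Q j) * (star (z j))⁻¹ else 0) *
      (∏ i ∈ C, fac (s i) (P i) (Q i) (z i)) * g z =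
      -∫ z : E n, (∏ i ∈ C, fac (s i) (P i) (Q i) (z i)) * dzb j g z := by
  obtain ⟨Φ, p1, p2⟩ := prod_c1 C s P Q h
  obtain ⟨k1, k2⟩ := int_dzb (p1.mul gs) (gc.mul_left) j
  have gd : ∀ z, DifferentiableAt ℝ g z := gs.differentiable one_ne_zero
  have c1 : ∀ v : E n, Continuous fun z => fderiv ℝ g z v := fun v =>
    (gs.continuous_fderiv one_ne_zero).clm_apply continuous_const
  have c2 : Continuous (dzb j g) := ((c1 _).add (continuous_const.mul (c1 _))).div_const 2
  have c3 : HasCompactSupport (dzb j g) := by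
    refine HasCompactSupport.intro gc fun z hz => ?_
    have : g =ᶠ[𝓝 z] fun _ => 0 := notMem_tsupport_iff_eventuallyEq.1 hz
    rw [dzb_congr this, dzb_const]
  have i1 : Integrable (fun z : E n => (∏ i ∈ C, fac (s i) (P i) (Q i) (z i)) * dzb j g z) :=
    ((p1.continuous.mul c2).integrable_of_hasCompactSupport c3.mul_left).congr
      (ae_ne.mono fun z hz => by simp only [Pi.mul_apply, p2 z fun i _ => hz i])
  have ee : ∀ᵐ z : E n, (if j ∈ C then ((s j : ℂ) + Q j) * (star (z j))⁻¹ else 0) *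
      (∏ i ∈ C, fac (s i) (P i) (Q i) (z i)) * g z = dzb j (fun w => Φ w * g w) z -
        (∏ i ∈ C, fac (s i) (P i) (Q i) (z i)) * dzb j g z := by
    refine ae_ne.mono fun z hz => ?_
    have ev : Φ =ᶠ[𝓝 z] fun w => ∏ i ∈ C, fac (s i) (P i) (Q i) (w i) := by
      have : ∀ᶠ w in 𝓝 z, ∀ i, w i ≠ 0 := eventually_all.2 fun i =>
        (continuous_apply i).continuousAt.eventually_ne (hz i)
      exact this.mono fun w hw => p2 w fun i _ => hw i
    rw [dzb_mul (p1.differentiable one_ne_zero z) (gd z), dzb_congr ev,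
      (dzb_prod C s P Q j fun i _ => hz i).2, p2 z fun i _ => hz i]
    ring
  refine ⟨i1, (k1.sub i1).congr (ee.mono fun z hz => hz.symm), ?_⟩
  rw [integral_congr_ae ee, integral_sub k1 i1, k2, zero_sub]

end Pool.Agent.Lib.EXA.K71
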