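import Pool.Agent.Lib.EXA.ABlue
import Pool.Agent.Lib.EXA.K71

/-! The divergence theorem for large exponents. -/

open scoped Classical Topology ENNReal ContDiff
open Set MeasureTheory Complex Metric Filter

noncomputable section

namespace Pool.Agent.Lib.EXA

open Pool.Agent.Lib.SV (E)
open Pool.Agent.Lib.HS32
open K71

namespace DIVE

variable {n : ℕ} {C : Finset (Fin n)} {r : Fin n → ℝ} {k : ℕ} {w : E n → ℝ} {z : E n}

theorem off_ev (h : Off C z) : ∀ᶠ y in 𝓝 z, Off C y :=
  (eventually_all_finset C).2 fun i hi => (continuous_apply i).continuousAt.eventually_ne (h i hi)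

theorem off_ae : ∀ᵐ z : E n, Off C z := ae_ne.mono fun _ h i _ => h i

theorem wt_mon (P Q : Fin n → ℤ) (t : ℝ) (h : Off C z) : wt C w t z * mon C r P Q z =
    (∏ i ∈ C, fac (r i + t) (P i) (Q i) (z i)) * ((Real.exp (-(t * w z)) : ℝ) : ℂ) := by
  have e : wt C w t z = (∏ i ∈ C, ((normSq (z i) ^ t : ℝ) : ℂ)) *
      ((Real.exp (-(t * w z)) : ℝ) : ℂ) := by
    rw [wt, lN, mul_sub, sub_eq_add_neg, Real.exp_add, Finset.mul_sum, Real.exp_sum, ofReal_mul,
      ofReal_prod]
    congr 1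
    refine Finset.prod_congr rfl fun i hi => ?_
    rw [Real.rpow_def_of_pos (normSq_pos.2 (h i hi)), mul_comm]
  rw [e, mon, mul_right_comm, ← Finset.prod_mul_distrib]
  congr 1
  refine Finset.prod_congr rfl fun i hi => ?_
  rw [fac, Real.rpow_add (normSq_pos.2 (h i hi)), ofReal_mul]
  ring

theorem lN_d (j : Fin n) (hw : DifferentiableAt ℝ w z) (h : Off C z) :
    DifferentiableAt ℝ (lN C w) z ∧ dzb j (fun x => (lN C w x : ℂ)) z =
      (if j ∈ C then (star (z j))⁻¹ else 0) - dzb j (fun x => (w x : ℂ)) z := by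
  have a : ∀ i ∈ C, DifferentiableAt ℝ (fun x : E n => Real.log (normSq (x i))) z ∧
      dzb j (fun x : E n => (Real.log (normSq (x i)) : ℂ)) z =
        if i = j then (star (z j))⁻¹ else 0 := fun i hi => by
    have n0 : 0 < normSq (z i) := normSq_pos.2 (h i hi)
    obtain ⟨d1, d2⟩ := dzb_fac 1 0 0 i j (h i hi)
    have e : ∀ ζ, fac 1 0 0 ζ = (normSq ζ : ℂ) := fun ζ => by simp [fac]
    simp only [e] at d1 d2
    have d3 : DifferentiableAt ℝ (fun x : E n => normSq (x i)) z := by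
      simpa [Function.comp_def] using reCLM.differentiableAt.comp z d1
    refine ⟨d3.log n0.ne', ?_⟩
    rw [dzb_comp_real (u := fun x : E n => normSq (x i)) (Real.hasDerivAt_log n0.ne') d3, d2]
    split_ifs with c
    · have : (normSq (z i) : ℂ) ≠ 0 := by exact_mod_cast n0.ne'
      subst c
      push_cast
      field_simp
      ring
    · simp
  have s : DifferentiableAt ℝ (fun x : E n => ∑ i ∈ C, Real.log (normSq (x i))) z :=
    DifferentiableAt.fun_sum fun i hi => (a i hi).1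
  refine ⟨s.sub hw, ?_⟩
  have e : (fun x => (lN C w x : ℂ)) =
      fun x => (∑ i ∈ C, (Real.log (normSq (x i)) : ℂ)) - (w x : ℂ) := by
    funext x
    rw [lN, ofReal_sub, ofReal_sum]
  have b : ∀ i ∈ C, DifferentiableAt ℝ (fun x : E n => (Real.log (normSq (x i)) : ℂ)) z :=
    fun i hi => ofRealCLM.differentiableAt.comp z (a i hi).1
  have b' : DifferentiableAt ℝ (fun x : E n => (w x : ℂ)) z := ofRealCLM.differentiableAt.comp z hw
  rw [e, dzb_sub (DifferentiableAt.fun_sum b) b', dzb_sum b,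
    Finset.sum_congr rfl fun i hi => (a i hi).2, Finset.sum_ite_eq']

theorem wt_d (j : Fin n) (t : ℝ) (hw : DifferentiableAt ℝ w z) (h : Off C z) :
    DifferentiableAt ℝ (wt C w t) z ∧
      dzb j (wt C w t) z = t * wt C w t z * dzb j (fun x => (lN C w x : ℂ)) z := by
  have d := (lN_d j hw h).1
  refine ⟨ofRealCLM.differentiableAt.comp z (d.const_mul t).exp, ?_⟩
  have := dzb_comp_real (j := j) (u := lN C w) (φ := fun x => Real.exp (t * x))
    (((hasDerivAt_id (lN C w z)).const_mul t).exp) d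
  refine this.trans ?_
  simp only [wt, id]
  push_cast
  ring

theorem dec (hw : ContDiff ℝ ∞ w) (j : Fin n) {φ : E n → ℂ} (h : Dec C r k φ) :
    (∀ z, Off C z → DifferentiableAt ℝ φ z) ∧ ∀ᶠ t : ℝ in atTop,
      (∃ Ψ : E n → ℂ, ContDiff ℝ 1 Ψ ∧ HasCompactSupport Ψ ∧
        ∀ z, Off C z → Ψ z = wt C w t z * φ z) ∧
      Integrable fun z => wt C w t z * (φ z * dzb j (fun x => (lN C w x : ℂ)) z) := by
  induction h with
  | zero =>
    exact ⟨fun z _ => differentiableAt_const 0, Eventually.of_forall fun t =>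
      ⟨⟨0, contDiff_const, HasCompactSupport.zero, fun z _ => by simp⟩, by simp⟩⟩
  | mon P Q g gs gc _ =>
    refine ⟨fun z hz => (dzb_prod C r P Q j hz).1.mul (cd_diff gs.contDiffAt), ?_⟩
    filter_upwards [(eventually_all_finset C).2 fun i _ =>
      eventually_ge_atTop (1 + |(P i : ℝ)| + |(Q i : ℝ)| - r i)] with t ht
    have hs : ∀ i ∈ C, 1 + |(P i : ℝ)| + |(Q i : ℝ)| ≤ r i + t := fun i hi => by
      linarith [ht i hi]
    obtain ⟨Φ, Φs, Φe⟩ := prod_c1 C (fun i => r i + t) P Q hs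
    have es : ContDiff ℝ ∞ fun z => ((Real.exp (-(t * w z)) : ℝ) : ℂ) * g z :=
      (ofRealCLM.contDiff.comp (contDiff_const.mul hw).neg.exp).mul gs
    have e1 := es.of_le (m := 1) (by exact_mod_cast le_top)
    have ec : HasCompactSupport fun z => ((Real.exp (-(t * w z)) : ℝ) : ℂ) * g z := gc.mul_left
    refine ⟨⟨fun z => Φ z * (((Real.exp (-(t * w z)) : ℝ) : ℂ) * g z), Φs.mul e1, ec.mul_left,
      fun z hz => by rw [← mul_assoc (wt C w t z), wt_mon P Q t hz, ← Φe z hz, mul_assoc]⟩, ?_⟩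
    have i1 := (ibp C (fun i => r i + t) P Q hs e1 ec j).2.1.const_mul
      ((((r j + t : ℝ) : ℂ) + Q j)⁻¹)
    have dw : Continuous (dzb j fun x => (w x : ℂ)) := continuous_iff_continuousAt.2 fun z =>
      (cd_dzb (cd_ofReal hw.contDiffAt) j).continuousAt
    have i2 : Integrable fun z => Φ z * (((Real.exp (-(t * w z)) : ℝ) : ℂ) * g z) *
        dzb j (fun x => (w x : ℂ)) z :=
      ((Φs.continuous.mul es.continuous).mul dw).integrable_of_hasCompactSupport
        ec.mul_left.mul_right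
    refine (i1.sub i2).congr (off_ae.mono fun z (hz : Off C z) => ?_)
    simp only [Pi.sub_apply]
    rw [(lN_d j (cd_diff hw.contDiffAt) hz).2, ← mul_assoc (wt C w t z), ← mul_assoc (wt C w t z),
      wt_mon P Q t hz, Φe z hz]
    split_ifs with c
    · have : ((r j + t : ℝ) : ℂ) + Q j ≠ 0 := by
        have h1 := hs j c
        have h2 := neg_abs_le (Q j : ℝ)
        have h3 := abs_nonneg (P j : ℝ)
        have : r j + t + Q j ≠ 0 := by linarith
        exact_mod_cast this
      field_simp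
    · ring
  | add φ ψ _ _ h1 h2 =>
    refine ⟨fun z hz => (h1.1 z hz).add (h2.1 z hz), ?_⟩
    filter_upwards [h1.2, h2.2] with t ⟨⟨Φ, a1, a2, a3⟩, a4⟩ ⟨⟨Ψ, b1, b2, b3⟩, b4⟩
    refine ⟨⟨Φ + Ψ, a1.add b1, a2.add b2, fun z hz => ?_⟩,
      (a4.add b4).congr (Eventually.of_forall fun z => ?_)⟩
    · rw [Pi.add_apply, a3 z hz, b3 z hz, mul_add]
    · simp only [Pi.add_apply]
      ring
  | congr φ ψ _ e h =>
    refine ⟨fun z hz => (h.1 z hz).congr_of_eventuallyEq ((off_ev hz).mono e), ?_⟩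
    filter_upwards [h.2] with t ⟨⟨Φ, a1, a2, a3⟩, a4⟩
    exact ⟨⟨Φ, a1, a2, fun z hz => by rw [a3 z hz, e z hz]⟩,
      a4.congr (off_ae.mono fun z (hz : Off C z) => by simp only [e z hz])⟩

end DIVE

open DIVE in
theorem bDIVE (hG : St_GLOB) : St_DIVE := by
  intro n C r k w K φ j hK hw h0 hφ
  obtain ⟨g1, g2, -⟩ := hG n K hK
  obtain ⟨u, us, ue⟩ := g2 w hw
  obtain ⟨d1, d2⟩ := dec us j (g1 C r k φ h0 hφ)
  have el : ∀ z ∈ K, lN C w =ᶠ[𝓝 z] lN C u := fun z hz =>
    (ue z hz).mono fun y hy => by simp only [lN, hy]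
  filter_upwards [d2] with t ⟨⟨Ψ, a1, a2, a3⟩, a4⟩
  obtain ⟨b1, b2⟩ := int_dzb a1 a2 j
  have e : ∀ z, Off C z → wt C u t z * dzb j φ z =
      dzb j Ψ z - t * (wt C u t z * (φ z * dzb j (fun x => (lN C u x : ℂ)) z)) := fun z hz => by
    obtain ⟨c1, c2⟩ := wt_d j t (cd_diff us.contDiffAt) hz
    rw [dzb_congr ((off_ev hz).mono a3), dzb_mul c1 (d1 z hz), c2]
    ring
  have e1 : RI C w (dzb j φ) t = RI C u (dzb j φ) t := by
    refine integral_congr_ae (Eventually.of_forall fun z => ?_)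
    by_cases hz : z ∈ K
    · simp only [wt, (el z hz).self_of_nhds]
    · have : φ =ᶠ[𝓝 z] fun _ => 0 := (hK.isClosed.isOpen_compl.eventually_mem hz).mono h0
      simp only [dzb_congr this, dzb_const, mul_zero]
  have e2 : RI C w (fun z => φ z * dzb j (fun x => (lN C w x : ℂ)) z) t =
      RI C u (fun z => φ z * dzb j (fun x => (lN C u x : ℂ)) z) t := by
    refine integral_congr_ae (Eventually.of_forall fun z => ?_)
    by_cases hz : z ∈ K
    · have : (fun x => (lN C w x : ℂ)) =ᶠ[𝓝 z] fun x => (lN C u x : ℂ) :=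
        (el z hz).mono fun y hy => by simp only [hy]
      simp only [wt, (el z hz).self_of_nhds, dzb_congr this]
    · simp only [h0 z hz, zero_mul, mul_zero]
  rw [e1, e2, RI, RI, integral_congr_ae (off_ae.mono e), integral_sub b1 (a4.const_mul _), b2,
    integral_const_mul]
  ring

end Pool.Agent.Lib.EXA
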