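import Pool.Agent.Lib.EXA.ABlue

/-! Row GLOB. -/

open scoped Classical Topology ContDiff Manifold
open Set Complex Filter Metric

namespace Pool.Agent.Lib.EXA

open Pool.Agent.Lib.SV (E)
open Pool.Agent.Lib.HS32

namespace GLOB

variable {n : ℕ} {C : Finset (Fin n)} {r : Fin n → ℝ} {k : ℕ} {z : E n} {φ : E n → ℂ}

theorem dec_sum {ι : Type} (s : Finset ι) {φ : ι → E n → ℂ} (h : ∀ a ∈ s, Dec C r k (φ a)) :
    Dec C r k fun w => ∑ a ∈ s, φ a w := by
  induction s using Finset.induction_on with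
  | empty => exact .congr _ _ .zero fun w _ => by simp
  | insert a s ha ih =>
    exact .congr _ _ (.add _ _ (h a (Finset.mem_insert_self a s))
      (ih fun b hb => h b (Finset.mem_insert_of_mem hb))) fun w _ => Finset.sum_insert ha

theorem cut (h : Loc C r k z φ) : ∃ U ∈ 𝓝 z, ∀ χ : E n → ℝ, ContDiff ℝ ∞ χ →
    HasCompactSupport χ → tsupport χ ⊆ U → Dec C r k fun w => χ w * φ w := by
  induction h with
  | zero => exact ⟨univ, univ_mem, fun χ _ _ _ => .congr _ _ .zero fun w _ => by simp⟩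
  | mon P Q g h1 h2 =>
    refine ⟨_, h1, fun χ a b c => .congr _ _ (.mon P Q (fun w => χ w * g w)
      (contDiff_iff_contDiffAt.2 fun w => ?_) (HasCompactSupport.intro b fun w hw => ?_) h2)
      fun w _ => by ring⟩
    · by_cases hw : w ∈ tsupport χ
      · exact (cd_ofReal a.contDiffAt).mul (c hw)
      · refine (contDiffAt_const (c := (0 : ℂ))).congr_of_eventuallyEq ?_
        filter_upwards [notMem_tsupport_iff_eventuallyEq.1 hw] with y hy
        simp [hy]
    · simp [image_eq_zero_of_notMem_tsupport hw]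
  | add φ ψ _ _ a b =>
    obtain ⟨U, hU, a⟩ := a
    obtain ⟨V, hV, b⟩ := b
    exact ⟨U ∩ V, inter_mem hU hV, fun χ x y t => .congr _ _
      (.add _ _ (a χ x y (t.trans inter_subset_left)) (b χ x y (t.trans inter_subset_right)))
      fun w _ => mul_add _ _ _⟩
  | congr φ ψ _ e a =>
    obtain ⟨U, hU, a⟩ := a
    refine ⟨_, inter_mem hU e, fun χ x y t => .congr _ _ (a χ x y (t.trans inter_subset_left))
      fun w hw => ?_⟩
    by_cases h0 : χ w = 0
    · simp [h0]
    · rw [(t (subset_tsupport _ h0)).2 hw]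

theorem dec {K : Set (E n)} (hK : IsCompact K) (h0 : ∀ z ∉ K, φ z = 0)
    (h : ∀ z ∈ K, Loc C r k z φ) : Dec C r k φ := by
  choose! U hU hc using fun z hz => cut (h z hz)
  obtain ⟨t, htK, ht⟩ := hK.elim_nhds_subcover (fun z => interior (U z))
    fun z hz => interior_mem_nhds.2 (hU z hz)
  obtain ⟨R, hR⟩ := hK.isBounded.subset_ball (0 : E n)
  obtain ⟨ρ, hρ⟩ := SmoothPartitionOfUnity.exists_isSubordinate (ι := t) 𝓘(ℝ, E n) hK.isClosed
    (fun a => interior (U a) ∩ ball 0 R) (fun a => isOpen_interior.inter isOpen_ball)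
    fun x hx => by
      obtain ⟨i, hi, hx'⟩ := mem_iUnion₂.1 (ht hx)
      exact mem_iUnion.2 ⟨⟨i, hi⟩, hx', hR hx⟩
  refine .congr _ _ (dec_sum Finset.univ fun (a : t) _ => hc a (htK a a.2) (ρ a)
    (ρ a).contMDiff.contDiff ((isCompact_closedBall (0 : E n) R).of_isClosed_subset
      (isClosed_tsupport _) fun x hx => ball_subset_closedBall (hρ a hx).2)
    fun x hx => interior_subset (hρ a hx).1) fun w _ => ?_
  by_cases hw : w ∈ K
  · have := ρ.sum_eq_one hw
    rw [finsum_eq_sum_of_fintype] at this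
    rw [← Finset.sum_mul, ← ofReal_sum, this]; simp
  · simp [h0 w hw]

theorem ext {K : Set (E n)} (hK : IsCompact K) {w : E n → ℝ} (h : ∀ z ∈ K, SmN w z) :
    ∃ w' : E n → ℝ, ContDiff ℝ ∞ w' ∧ ∀ z ∈ K, w' =ᶠ[𝓝 z] w := by
  obtain ⟨f, f0, f1, -⟩ := exists_contMDiffMap_zero_one_nhds_of_isClosed (n := ⊤) 𝓘(ℝ, E n)
    (s := {z | SmN w z}ᶜ) (t := K) isOpen_setOf_eventually_nhds.isClosed_compl hK.isClosed
    (disjoint_left.2 fun z a b => a (h z b))
  refine ⟨fun z => f z * w z, contDiff_iff_contDiffAt.2 fun z => ?_, fun z hz => ?_⟩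
  · by_cases hz : SmN w z
    · exact f.contMDiff.contDiff.contDiffAt.mul hz.self_of_nhds
    · refine (contDiffAt_const (c := (0 : ℝ))).congr_of_eventuallyEq ?_
      filter_upwards [f0.filter_mono (nhds_le_nhdsSet hz)] with y hy
      simp [hy]
  · filter_upwards [f1.filter_mono (nhds_le_nhdsSet hz)] with y hy
    simp [hy]

theorem sm {K : Set (E n)} (hK : IsCompact K) (h0 : ∀ z ∉ K, φ z = 0) (h : ∀ z ∈ K, SmN φ z) :
    ContDiff ℝ ∞ φ ∧ HasCompactSupport φ := by
  refine ⟨contDiff_iff_contDiffAt.2 fun z => ?_, HasCompactSupport.intro hK h0⟩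
  by_cases hz : z ∈ K
  · exact (h z hz).self_of_nhds
  · refine (contDiffAt_const (c := (0 : ℂ))).congr_of_eventuallyEq ?_
    filter_upwards [hK.isClosed.isOpen_compl.mem_nhds hz] with y hy using h0 y hy

end GLOB

theorem st_GLOB : St_GLOB := fun _ _ hK =>
  ⟨fun _ _ _ _ => GLOB.dec hK, fun _ => GLOB.ext hK, fun _ => GLOB.sm hK⟩

end Pool.Agent.Lib.EXA
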