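import Pool.Agent.Lib.EXA.ABlue
import Pool.Agent.Lib.EXA.K71

/-! Row `IBP`: integration by parts in the conjugate of one coordinate. -/

open scoped Classical Topology ENNReal ContDiff
open Set MeasureTheory Complex Metric Filter

noncomputable section

namespace Pool.Agent.Lib.EXA

open Pool.Agent.Lib.SV (E)
open Pool.Agent.Lib.HS32

namespace IBP

open K71

variable {n : ℕ}

theorem wt_mon (C : Finset (Fin n)) (w : E n → ℝ) (r : Fin n → ℝ) (P Q : Fin n → ℤ) (t : ℝ)
    {z : E n} (hz : ∀ i, z i ≠ 0) (c : ℂ) : wt C w t z * (mon C r P Q z * c) =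
      (∏ i ∈ C, fac (r i + t) (P i) (Q i) (z i)) * (c * ((Real.exp (-(t * w z)) : ℝ) : ℂ)) := by
  have e1 : wt C w t z = (∏ i ∈ C, ((normSq (z i) ^ t : ℝ) : ℂ)) *
      ((Real.exp (-(t * w z)) : ℝ) : ℂ) := by
    rw [wt, lN, mul_sub, sub_eq_add_neg, Real.exp_add, Finset.mul_sum, Real.exp_sum, ofReal_mul,
      ofReal_prod]
    congr 1
    refine Finset.prod_congr rfl fun i _ => ?_
    rw [Real.rpow_def_of_pos (normSq_pos.2 (hz i)), mul_comm]
  have e2 : (∏ i ∈ C, fac (r i + t) (P i) (Q i) (z i)) =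
      (∏ i ∈ C, ((normSq (z i) ^ t : ℝ) : ℂ)) * mon C r P Q z := by
    rw [mon, ← Finset.prod_mul_distrib]
    refine Finset.prod_congr rfl fun i _ => ?_
    rw [fac, Real.rpow_add (normSq_pos.2 (hz i)), ofReal_mul]; ring
  rw [e1, e2]; ring

theorem large (C : Finset (Fin n)) (r : Fin n → ℝ) (P Q : Fin n → ℤ) :
    ∀ᶠ t : ℝ in atTop, ∀ i ∈ C, 1 + |(P i : ℝ)| + |(Q i : ℝ)| ≤ r i + t :=
  (eventually_all_finset C).2 fun i _ =>
    (eventually_ge_atTop (1 + |(P i : ℝ)| + |(Q i : ℝ)| - r i)).mono fun t ht => by linarith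

/-- The general form, for any `j`. -/
theorem core (C : Finset (Fin n)) (w : E n → ℝ) (r : Fin n → ℝ) (P Q : Fin n → ℤ)
    (g : E n → ℂ) (j : Fin n) (ws : ContDiff ℝ ∞ w) (gs : ContDiff ℝ ∞ g)
    (gc : HasCompactSupport g) : ∀ᶠ t : ℝ in atTop,
    ∫ z : E n, (if j ∈ C then (((r j + t : ℝ) : ℂ) + Q j) * (star (z j))⁻¹ else 0) *
      (wt C w t z * (mon C r P Q z * g z)) = -JM C w r P Q (dzb j g) t +
        t * JM C w r P Q (fun z => g z * dzb j (fun y => (w y : ℂ)) z) t := by
  refine (large C r P Q).mono fun t ht => ?_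
  set e : E n → ℂ := fun z => ((Real.exp (-(t * w z)) : ℝ) : ℂ) with he
  have es : ContDiff ℝ ∞ e :=
    ofRealCLM.contDiff.comp (Real.contDiff_exp.comp (contDiff_const.mul ws).neg)
  have wc : ContDiff ℝ ∞ (dzb j fun y => (w y : ℂ)) :=
    contDiff_iff_contDiffAt.2 fun z => cd_dzb (cd_ofReal ws.contDiffAt) j
  have de : ∀ z, dzb j (fun y => g y * e y) z =
      dzb j g z * e z - t * (g z * dzb j (fun y => (w y : ℂ)) z * e z) := by
    intro z
    have h1 : HasDerivAt (fun x : ℝ => Real.exp (-(t * x))) (Real.exp (-(t * w z)) * -(t * 1))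
        (w z) := ((hasDerivAt_id' (w z)).const_mul t).fun_neg.exp
    have h2 := dzb_comp_real (j := j) (u := w) h1 (cd_diff ws.contDiffAt)
    rw [dzb_mul (cd_diff gs.contDiffAt) (cd_diff es.contDiffAt), he, h2]
    push_cast; ring
  obtain ⟨a1, -, a3⟩ := ibp C (fun i => r i + t) P Q ht ((gs.mul es).of_le (by simp))
    gc.mul_right j
  obtain ⟨Φ, p1, p2⟩ := prod_c1 C (fun i => r i + t) P Q ht
  have i2 : Integrable fun z : E n => (∏ i ∈ C, fac (r i + t) (P i) (Q i) (z i)) *
      (g z * dzb j (fun y => (w y : ℂ)) z * e z) :=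
    ((p1.continuous.mul ((gs.mul wc).mul es).continuous).integrable_of_hasCompactSupport
      (gc.mul_right.mul_right.mul_left)).congr
      (ae_ne.mono fun z hz => by simp only [Pi.mul_apply, p2 z fun i _ => hz i])
  have j1 : JM C w r P Q (dzb j g) t = ∫ z : E n, ((∏ i ∈ C, fac (r i + t) (P i) (Q i) (z i)) *
      dzb j (fun y => g y * e y) z + t * ((∏ i ∈ C, fac (r i + t) (P i) (Q i) (z i)) *
      (g z * dzb j (fun y => (w y : ℂ)) z * e z))) :=
    integral_congr_ae (ae_ne.mono fun z hz => by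
      simp only [wt_mon C w r P Q t hz, de z]; ring)
  have j2 : JM C w r P Q (fun z => g z * dzb j (fun y => (w y : ℂ)) z) t =
      ∫ z : E n, (∏ i ∈ C, fac (r i + t) (P i) (Q i) (z i)) *
        (g z * dzb j (fun y => (w y : ℂ)) z * e z) :=
    integral_congr_ae (ae_ne.mono fun z hz => wt_mon C w r P Q t hz _)
  rw [j1, j2, integral_add a1 (i2.const_mul _), integral_const_mul, neg_add, ← a3,
    neg_add_cancel_right]
  exact integral_congr_ae (ae_ne.mono fun z hz => by
    simp only [wt_mon C w r P Q t hz]; ring)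

theorem mon_upd (C : Finset (Fin n)) (r : Fin n → ℝ) (P Q : Fin n → ℤ) {j : Fin n} (hj : j ∈ C)
    {z : E n} (hz : z j ≠ 0) :
    mon C r P (Function.update Q j (Q j + 1)) z = mon C r P Q z * star (z j) := by
  rw [mon, mon, ← Finset.mul_prod_erase C _ hj, ← Finset.mul_prod_erase C _ hj,
    Function.update_self, zpow_add_one₀ (star_ne_zero.2 hz),
    Finset.prod_congr rfl fun i hi => by rw [Function.update_of_ne (Finset.ne_of_mem_erase hi)]]
  ring

end IBP

theorem bIBP : St_IBP := by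
  intro n C w r P Q g j ws gs gc
  refine ⟨fun hj => (IBP.core C w r P (Function.update Q j (Q j + 1)) g j ws gs gc).mono
    fun t ht => ?_, fun hj => (IBP.core C w r P Q g j ws gs gc).mono fun t ht => ?_⟩
  · rw [← ht, JM, RI, ← integral_const_mul]
    refine integral_congr_ae (K71.ae_ne.mono fun z hz => ?_)
    have s0 : star (z j) ≠ 0 := star_ne_zero.2 (hz j)
    simp only [if_pos hj, Function.update_self, IBP.mon_upd C r P Q hj (hz j)]
    push_cast
    field_simp
    ring
  · simp only [if_neg hj, zero_mul, integral_zero] at ht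
    linear_combination ht

end Pool.Agent.Lib.EXA
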