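import Mathlib

/-! Laplace transforms: holomorphy on the right half plane and the limit at the origin. -/

open MeasureTheory Set Filter Topology Complex

namespace Pool.Agent.Lib.EXA.K78

variable {α : Type*} [MeasurableSpace α] {μ : Measure α} {l : α → ℝ} {g : α → ℂ}

theorem exp_bd {a δ x y : ℝ} (hδ : 0 < δ) (hx : |x - a| ≤ δ) :
    |y| * Real.exp (x * y) ≤ δ⁻¹ * (Real.exp ((a + 2 * δ) * y) + Real.exp ((a - 2 * δ) * y)) := by
  have h1 : δ * |y| ≤ Real.exp (δ * |y|) := by linarith [Real.add_one_le_exp (δ * |y|)]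
  have h2 : Real.exp (δ * |y|) * Real.exp (x * y) ≤
      Real.exp ((a + 2 * δ) * y) + Real.exp ((a - 2 * δ) * y) := by
    rw [← Real.exp_add]
    obtain ⟨hx1, hx2⟩ := abs_le.1 hx
    rcases le_total 0 y with h | h
    · rw [abs_of_nonneg h]
      have : δ * y + x * y ≤ (a + 2 * δ) * y := by nlinarith
      linarith [Real.exp_le_exp.2 this, Real.exp_pos ((a - 2 * δ) * y)]
    · rw [abs_of_nonpos h]
      have : δ * -y + x * y ≤ (a - 2 * δ) * y := by nlinarith
      linarith [Real.exp_le_exp.2 this, Real.exp_pos ((a + 2 * δ) * y)]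
  rw [← div_eq_inv_mul, le_div_iff₀ hδ]
  nlinarith [Real.exp_pos (x * y), mul_le_mul_of_nonneg_right h1 (Real.exp_pos (x * y)).le]

theorem norm_eq (s : ℂ) (x : α) : ‖cexp (s * l x) * g x‖ = Real.exp (s.re * l x) * ‖g x‖ := by
  rw [norm_mul, Complex.norm_exp]; simp

theorem meas (hl : AEMeasurable l μ) (hg : AEStronglyMeasurable g μ) (s : ℂ) :
    AEStronglyMeasurable (fun x => cexp (s * l x) * g x) μ :=
  ((Complex.measurable_exp.comp_aemeasurable
    ((Complex.measurable_ofReal.comp_aemeasurable hl).const_mul s)).aestronglyMeasurable).mul hg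

theorem int_c (hl : AEMeasurable l μ) (hg : AEStronglyMeasurable g μ) {s : ℂ}
    (hi : Integrable (fun x => Real.exp (s.re * l x) * ‖g x‖) μ) :
    Integrable (fun x => cexp (s * l x) * g x) μ :=
  hi.mono' (meas hl hg s) (ae_of_all _ fun x => (norm_eq s x).le)

/-- The Laplace transform is holomorphic on the strip where it converges. -/
theorem lap_hol {a : ℝ} (hl : AEMeasurable l μ) (hg : AEStronglyMeasurable g μ)
    (hi : ∀ t, a < t → Integrable (fun x => Real.exp (t * l x) * ‖g x‖) μ) :
    DifferentiableOn ℂ (fun s : ℂ => ∫ x, cexp (s * l x) * g x ∂μ) {s | a < s.re} := by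
  intro s hs
  have hs' : a < s.re := hs
  set δ := (s.re - a) / 3 with hδ
  have h0 : 0 < δ := by rw [hδ]; linarith
  have hb := ((hi (s.re + 2 * δ) (by linarith)).add (hi (s.re - 2 * δ) (by linarith))).const_mul δ⁻¹
  have key := hasDerivAt_integral_of_dominated_loc_of_deriv_le (μ := μ) (𝕜 := ℂ)
    (F := fun (z : ℂ) x => cexp (z * l x) * g x)
    (F' := fun (z : ℂ) x => cexp (z * l x) * (l x * g x)) (x₀ := s) (s := Metric.ball s δ)
    (bound := fun x => δ⁻¹ * (Real.exp ((s.re + 2 * δ) * l x) * ‖g x‖ +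
      Real.exp ((s.re - 2 * δ) * l x) * ‖g x‖)) (Metric.ball_mem_nhds s h0)
    (Eventually.of_forall fun z => meas hl hg z) (int_c hl hg (hi _ hs'))
    (meas hl ((Complex.measurable_ofReal.comp_aemeasurable hl).aestronglyMeasurable.mul hg) s)
    (ae_of_all _ fun x z hz => ?_) hb (ae_of_all _ fun x z _ => ?_)
  · exact key.2.differentiableAt.differentiableWithinAt
  · have h1 : |z.re - s.re| ≤ δ := by
      have := Complex.abs_re_le_norm (z - s)
      rw [Metric.mem_ball, dist_eq_norm] at hz
      simp only [sub_re] at this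
      linarith
    rw [norm_eq (g := fun x => l x * g x), norm_mul, Complex.norm_real, Real.norm_eq_abs, ← add_mul, ← mul_assoc,
      ← mul_assoc, mul_comm (Real.exp _)]
    exact mul_le_mul_of_nonneg_right (exp_bd h0 h1) (norm_nonneg _)
  · have := (((hasDerivAt_id z).mul_const (l x : ℂ)).cexp).mul_const (g x)
    simpa [mul_assoc] using this

/-- The limit at the origin for an integrable function. -/
theorem lap_lim (hl : AEMeasurable l μ) (hg : Integrable g μ)
    (hi : Integrable (fun x => Real.exp (l x) * ‖g x‖) μ) :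
    Tendsto (fun t : ℝ => ∫ x, cexp (t * l x) * g x ∂μ) (𝓝[>] 0) (𝓝 (∫ x, g x ∂μ)) := by
  refine tendsto_integral_filter_of_dominated_convergence
    (fun x => ‖g x‖ + Real.exp (l x) * ‖g x‖) (Eventually.of_forall fun t => meas hl hg.1 t) ?_
    (hg.norm.add hi) (ae_of_all _ fun x => ?_)
  · filter_upwards [Ioo_mem_nhdsGT (zero_lt_one' ℝ)] with t ht
    refine ae_of_all _ fun x => ?_
    rw [norm_eq, ofReal_re, ← one_add_mul]
    refine mul_le_mul_of_nonneg_right ?_ (norm_nonneg _)
    rcases le_total 0 (l x) with h | h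
    · have : t * l x ≤ l x := by nlinarith [ht.1, ht.2]
      linarith [Real.exp_le_exp.2 this]
    · have : t * l x ≤ 0 := by nlinarith [ht.1]
      linarith [Real.exp_le_one_iff.2 this, Real.exp_pos (l x)]
  · have : ContinuousAt (fun t : ℝ => cexp (t * l x) * g x) 0 := by fun_prop
    simpa using this.tendsto.mono_left nhdsWithin_le_nhds

end Pool.Agent.Lib.EXA.K78
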