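import Pool.Agent.Lib.EXA.ABlue
import Pool.Agent.Lib.EXA.K78

/-! Row LAP. -/

open scoped Topology
open Set MeasureTheory Complex Filter

namespace Pool.Agent.Lib.EXA

open Pool.Agent.Lib.SV (E)

theorem st_LAP : St_LAP := by
  intro n l φ hl
  have hm := hl.aemeasurable
  have e : ∀ (t : ℝ) (z : E n), ((Real.exp (t * l z) : ℝ) : ℂ) = cexp (t * l z) := fun t z => by
    push_cast; rfl
  have nr : ∀ t : ℝ, (Integrable fun z => ((Real.exp (t * l z) : ℝ) : ℂ) * φ z) →
      Integrable fun z => Real.exp (t * l z) * ‖φ z‖ := fun t h => by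
    simpa only [norm_mul, Complex.norm_real, Real.norm_eq_abs, Real.abs_exp] using h.norm
  have A : (∀ t : ℝ, 0 < t → Integrable fun z => ((Real.exp (t * l z) : ℝ) : ℂ) * φ z) →
      DifferentiableOn ℂ (fun μ : ℂ => ∫ z, cexp (μ * l z) * φ z) {μ | 0 < μ.re} := fun h => by
    have h1 := K78.meas hm (h 1 one_pos).1 (-1)
    refine K78.lap_hol hm (h1.congr (ae_of_all _ fun z => ?_)) fun t ht => nr t (h t ht)
    simp only [e]
    rw [← mul_assoc, ← Complex.exp_add]
    simp
  refine ⟨A, fun hφ ⟨M, hM⟩ => ?_⟩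
  have B : ∀ t : ℝ, 0 < t → Integrable fun z => ((Real.exp (t * l z) : ℝ) : ℂ) * φ z := by
    intro t ht
    simp only [e]
    refine (hφ.norm.const_mul (Real.exp (t * M))).mono' (K78.meas hm hφ.1 t)
      (ae_of_all _ fun z => ?_)
    rw [K78.norm_eq, ofReal_re]
    by_cases h0 : φ z = 0
    · simp [h0]
    · exact mul_le_mul_of_nonneg_right
        (Real.exp_le_exp.2 (mul_le_mul_of_nonneg_left (hM z h0) ht.le)) (norm_nonneg _)
  refine ⟨B, fun _ => 1, _, differentiable_const _, one_ne_zero, A B,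
    Eventually.of_forall fun t => by simp only [e, one_mul], ?_⟩
  rw [one_mul]
  exact K78.lap_lim hm hφ (by simpa using nr 1 (B 1 one_pos))

end Pool.Agent.Lib.EXA
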