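import Pool.Agent.Lib.EXA.B_LOCK

/-! Row LCH. -/

open scoped Classical Topology ContDiff
open Set Complex Filter

namespace Pool.Agent.Lib.EXA

open Pool.Agent.Lib.SV (E)
open Pool.Agent.Lib.HS32 LOCK K71

theorem LCH.fac_mul (s : ℝ) (P Q : ℤ) (a b : ℂ) : fac s P Q (a * b) = fac s P Q a * fac s P Q b := by
  simp only [fac, map_mul, Real.mul_rpow (normSq_nonneg a) (normSq_nonneg b), star_mul', mul_zpow]
  push_cast; ring

theorem st_LCH : St_LCH := by
  intro n n' C C' r r' k ψ z τ φ hψ hτ hu h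
  choose! hr u us u0 ue using hu
  have ψc : ContinuousAt ψ z := hψ.self_of_nhds.continuousAt
  have nz : ∀ᶠ w in 𝓝 z, ∀ i, ψ z i ≠ 0 → ψ w i ≠ 0 := eventually_all.2 fun i => by
    by_cases h0 : ψ z i = 0
    · simp [h0]
    · exact (((continuous_apply i).continuousAt.comp ψc).eventually_ne h0).mono fun w hw _ => hw
  have nw : ∀ᶠ w in 𝓝 z, ∀ i, z i ≠ 0 → w i ≠ 0 := eventually_all.2 fun i => by
    by_cases h0 : z i = 0
    · simp [h0]
    · exact ((continuous_apply i).continuousAt.eventually_ne h0).mono fun w hw _ => hw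
  set A := C'.filter fun i => ψ z i = 0 with hA
  have mA : ∀ i, i ∈ A ↔ i ∈ C' ∧ ψ z i = 0 := fun i => Finset.mem_filter
  have nu : ∀ᶠ w in 𝓝 z, ∀ i ∈ A, ContDiffAt ℝ ∞ (u i) w ∧ u i w ≠ 0 ∧ ψ w i = u i w * w (τ i) :=
    (eventually_all_finset A).2 fun i hi => by
      obtain ⟨a, b⟩ := (mA i).1 hi
      exact (us i a b).and (((us i a b).self_of_nhds.continuousAt.eventually_ne (u0 i a b)).and
        (ue i a b))
  have off : ∀ᶠ w in 𝓝 z, Off C w → Off C' (ψ w) := (nz.and nu).mono fun w hw ho i hi => by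
    by_cases h0 : ψ z i = 0
    · obtain ⟨-, a, b⟩ := hw.2 i ((mA i).2 ⟨hi, h0⟩)
      rw [b]; exact mul_ne_zero a (ho _ (hτ.1 ⟨hi, h0⟩).1)
    · exact hw.1 i h0
  induction h with
  | zero => exact .zero
  | add φ φ' _ _ a b => exact .add _ _ a b
  | congr φ φ' _ e a =>
    exact .congr _ _ a (((ψc.eventually e).and off).mono fun w hw ho => hw.1 (hw.2 ho))
  | mon P Q g h1 h2 =>
    let T : (Fin n' → ℤ) → Fin n → ℤ := fun P j => ∑ i ∈ A, if τ i = j then P i else 0
    have T1 : ∀ P, ∀ i ∈ A, T P (τ i) = P i := fun P i hi => by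
      simp only [T]
      rw [Finset.sum_eq_single i (fun b hb hne => if_neg fun e =>
        hne (hτ.2.1 ((mA b).1 hb) ((mA i).1 hi) e)) fun x => (x hi).elim, if_pos rfl]
    refine .congr _ _ (at_pt (T P) (T Q) (g := fun w => g (ψ w) *
      ((∏ i ∈ A, fac (r' i) (P i) (Q i) (u i w)) *
        (∏ i ∈ C'.filter fun i => ¬ψ z i = 0, fac (r' i) (P i) (Q i) (ψ w i)) *
        ∏ j ∈ C.filter fun j => ¬z j = 0, fac (-r j) (-T P j) (-T Q j) (w j))) ?_
      (le_trans ?_ h2)) ?_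
    · filter_upwards [hψ, ψc.eventually h1, nz, nw, nu] with w a b c d e
      exact (b.comp w a).mul (((contDiffAt_prod fun i hi => cd_fac (e i hi).1 (e i hi).2.1 _ _ _).mul
        (contDiffAt_prod fun i hi => cd_fac (contDiffAt_pi.1 a i)
          (c i (Finset.mem_filter.1 hi).2) _ _ _)).mul
        (contDiffAt_prod fun i hi => cd_fac (cd_coord i) (d i (Finset.mem_filter.1 hi).2) _ _ _))
    · refine le_trans (Finset.card_le_card fun j hj => ?_) (Finset.card_image_le (f := τ))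
      obtain ⟨a, b, c⟩ := Finset.mem_filter.1 hj
      obtain ⟨i, hi, rfl⟩ := hτ.2.2 ⟨a, b⟩
      rw [T1 P i ((mA i).2 hi), T1 Q i ((mA i).2 hi), hr i hi.1 hi.2] at c
      exact Finset.mem_image_of_mem τ (Finset.mem_filter.2 ⟨hi.1, c⟩)
    · filter_upwards [nu] with w e ho
      have e1 : ∏ j ∈ C.filter fun j => z j = 0, fac (r j) (T P j) (T Q j) (w j) =
          ∏ i ∈ A, fac (r' i) (P i) (Q i) (w (τ i)) := by
        refine (Finset.prod_nbij τ (fun i hi => Finset.mem_filter.2 (by exact hτ.1 ((mA i).1 hi)))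
          (fun a ha b hb => hτ.2.1 ((mA a).1 ha) ((mA b).1 hb)) (fun j hj => ?_)
          fun i hi => ?_).symm
        · obtain ⟨i, hi, rfl⟩ := hτ.2.2 (Finset.mem_filter.1 hj)
          exact ⟨i, (mA i).2 hi, rfl⟩
        · rw [T1 P i hi, T1 Q i hi, hr i ((mA i).1 hi).1 ((mA i).1 hi).2]
      have e2 : (∏ j ∈ C.filter fun j => ¬z j = 0, fac (r j) (T P j) (T Q j) (w j)) *
          ∏ j ∈ C.filter fun j => ¬z j = 0, fac (-r j) (-T P j) (-T Q j) (w j) = 1 := by
        rw [← Finset.prod_mul_distrib]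
        refine Finset.prod_eq_one fun j hj => ?_
        have h0 := ho j (Finset.mem_filter.1 hj).1
        have h3 : ((normSq (w j) ^ r j : ℝ) : ℂ) ≠ 0 :=
          ofReal_ne_zero.2 (Real.rpow_pos_of_pos (normSq_pos.2 h0) _).ne'
        have h4 := zpow_ne_zero (T P j) h0
        have h5 := zpow_ne_zero (T Q j) (star_ne_zero.2 h0)
        simp only [fac, Real.rpow_neg (normSq_nonneg _), zpow_neg, ofReal_inv]
        field_simp
      have e3 : ∏ i ∈ A, fac (r' i) (P i) (Q i) (ψ w i) =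
          (∏ i ∈ A, fac (r' i) (P i) (Q i) (u i w)) * ∏ i ∈ A, fac (r' i) (P i) (Q i) (w (τ i)) := by
        rw [← Finset.prod_mul_distrib]
        exact Finset.prod_congr rfl fun i hi => by rw [(e i hi).2.2, LCH.fac_mul]
      change (∏ i ∈ C', fac (r' i) (P i) (Q i) (ψ w i)) * g (ψ w) =
        (∏ j ∈ C, fac (r j) (T P j) (T Q j) (w j)) * _
      rw [← Finset.prod_filter_mul_prod_filter_not C' fun i => ψ z i = 0,
        ← Finset.prod_filter_mul_prod_filter_not C fun j => z j = 0, e1, ← hA, e3]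
      linear_combination (-(∏ i ∈ A, fac (r' i) (P i) (Q i) (u i w)) *
        (∏ i ∈ A, fac (r' i) (P i) (Q i) (w (τ i))) *
        (∏ i ∈ C'.filter fun i => ¬ψ z i = 0, fac (r' i) (P i) (Q i) (ψ w i)) * g (ψ w)) * e2

end Pool.Agent.Lib.EXA
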