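import Pool.Agent.Lib.EXA.ABlue
import Pool.Agent.Lib.EXA.K71

/-! Row LOCK. -/

open scoped Classical Topology ContDiff
open Set Complex Filter

namespace Pool.Agent.Lib.EXA

open Pool.Agent.Lib.SV (E)
open Pool.Agent.Lib.HS32

namespace LOCK

variable {n : ℕ} {C : Finset (Fin n)} {r : Fin n → ℝ} {k : ℕ} {z : E n} {φ ψ g : E n → ℂ}

theorem off_ev (h : Off C z) : ∀ᶠ w in 𝓝 z, Off C w :=
  (eventually_all_finset C).2 fun i hi => (continuous_apply i).continuousAt.eventually_ne (h i hi)

theorem cd_zpow {f : E n → ℂ} (hf : ContDiffAt ℝ ∞ f z) (m : ℤ) (h : f z ≠ 0 ∨ m = 0) :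
    ContDiffAt ℝ ∞ (fun w => f w ^ m) z := by
  rcases h with h | rfl
  · rcases m with m | m
    · simpa using hf.pow m
    · simp only [zpow_negSucc]; exact (hf.pow (m + 1)).inv (pow_ne_zero _ h)
  · simpa using contDiffAt_const

theorem cd_coord (i : Fin n) : ContDiffAt ℝ ∞ (fun w : E n => w i) z := contDiffAt_apply ℝ ℂ i z

theorem cd_nsq {f : E n → ℂ} (hf : ContDiffAt ℝ ∞ f z) :
    ContDiffAt ℝ ∞ (fun w => normSq (f w)) z := by
  have : (fun w : E n => normSq (f w)) = fun w => (f w * star (f w)).re :=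
    funext fun w => by rw [show f w * star (f w) = (normSq (f w) : ℂ) from mul_conj _, ofReal_re]
  rw [this]; exact cd_re (hf.mul (cd_star hf))

theorem cd_fac {f : E n → ℂ} (hf : ContDiffAt ℝ ∞ f z) (h : f z ≠ 0) (s : ℝ) (P Q : ℤ) :
    ContDiffAt ℝ ∞ (fun w => ((normSq (f w) ^ s : ℝ) : ℂ) * f w ^ P * star (f w) ^ Q) z :=
  ((cd_ofReal ((cd_nsq hf).rpow_const_of_ne (normSq_pos.2 h).ne')).mul
    (cd_zpow hf P (Or.inl h))).mul (cd_zpow (cd_star hf) Q (Or.inl (star_ne_zero.2 h)))

theorem cd_mon (h : Off C z) (P Q : Fin n → ℤ) : ContDiffAt ℝ ∞ (mon C r P Q) z :=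
  contDiffAt_prod fun i hi => cd_fac (cd_coord i) (h i hi) _ _ _

theorem bad_le (P Q : Fin n → ℤ) : bad C r P Q ≤ n :=
  (Finset.card_le_univ _).trans (Fintype.card_fin n).le

theorem mono {k' : ℕ} (hk : k ≤ k') (h : Loc C r k z φ) : Loc C r k' z φ := by
  induction h with
  | zero => exact .zero
  | mon P Q g h1 h2 => exact .mon P Q g h1 (h2.trans hk)
  | add φ ψ _ _ a b => exact .add _ _ a b
  | congr φ ψ _ e a => exact .congr _ _ a e

theorem top (h : Loc C r k z φ) : Loc C r n z φ := by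
  induction h with
  | zero => exact .zero
  | mon P Q g h1 h2 => exact .mon P Q g h1 (bad_le P Q)
  | add φ ψ _ _ a b => exact .add _ _ a b
  | congr φ ψ _ e a => exact .congr _ _ a e

theorem cg (h : Loc C r k z φ) (e : ∀ w, ψ w = φ w) : Loc C r k z ψ :=
  .congr _ _ h (Eventually.of_forall fun w _ => e w)

theorem SmN.mul {f : E n → ℂ} (hf : SmN f z) (hg : SmN g z) : SmN (fun w => f w * g w) z :=
  (hf.and hg).mono fun _ h => h.1.mul h.2

theorem smN_const (c : ℂ) : SmN (fun _ : E n => c) z :=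
  Eventually.of_forall fun _ => contDiffAt_const

theorem mul (h : Loc C r k z φ) (hg : SmN g z) : Loc C r k z fun w => φ w * g w := by
  induction h with
  | zero => exact cg .zero fun w => by simp
  | mon P Q f h1 h2 => exact cg (.mon P Q _ (SmN.mul h1 hg) h2) fun w => mul_assoc _ _ _
  | add φ ψ _ _ a b => exact cg (.add _ _ a b) fun w => add_mul _ _ _
  | congr φ ψ _ e a => exact .congr _ _ a (e.mono fun w hw ho => by rw [hw ho])

theorem sub (h : Loc C r k z φ) (h' : Loc C r k z ψ) : Loc C r k z fun w => φ w - ψ w :=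
  cg (.add _ _ h (mul h' (smN_const (-1)))) fun w => by ring

theorem sum {ι : Type} (s : Finset ι) {φ : ι → E n → ℂ} (h : ∀ a ∈ s, Loc C r k z (φ a)) :
    Loc C r k z fun w => ∑ a ∈ s, φ a w := by
  induction s using Finset.induction_on with
  | empty => exact cg .zero fun w => by simp
  | insert a s ha ih =>
    exact cg (.add _ _ (h a (Finset.mem_insert_self a s))
      (ih fun b hb => h b (Finset.mem_insert_of_mem hb))) fun w => Finset.sum_insert ha

theorem mon_mul (P Q P' Q' : Fin n → ℤ) (h : Off C z) :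
    mon C r P Q z * mon C 0 P' Q' z = mon C r (P + P') (Q + Q') z := by
  simp only [mon, ← Finset.prod_mul_distrib]
  refine Finset.prod_congr rfl fun i hi => ?_
  simp only [Pi.add_apply, Pi.zero_apply, Real.rpow_zero, zpow_add₀ (h i hi),
    zpow_add₀ (star_ne_zero.2 (h i hi))]
  push_cast; ring

theorem at_pt (P Q : Fin n → ℤ) (hg : SmN g z)
    (h : (C.filter fun i => z i = 0 ∧ BadC (r i) (P i) (Q i)).card ≤ k) :
    Loc C r k z fun w => mon C r P Q w * g w := by
  set P' : Fin n → ℤ := fun i => if z i = 0 then P i else ⌈-r i⌉ with hP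
  have hu : SmN (mon C 0 (P - P') 0) z := by
    have : ∀ᶠ w in 𝓝 z, ∀ i, z i ≠ 0 → w i ≠ 0 := eventually_all.2 fun i => by
      by_cases h0 : z i = 0
      · simp [h0]
      · exact ((continuous_apply i).continuousAt.eventually_ne h0).mono fun w hw _ => hw
    refine this.mono fun w hw => contDiffAt_prod fun i _ => ?_
    simp only [Pi.zero_apply, Real.rpow_zero, zpow_zero, mul_one, ofReal_one, one_mul]
    refine cd_zpow (cd_coord i) _ ?_
    by_cases h0 : z i = 0
    · right; simp [hP, h0]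
    · exact Or.inl (hw i h0)
  refine .congr _ _ (.mon P' Q _ (SmN.mul hu hg) (le_trans (Finset.card_le_card ?_) h))
    (Eventually.of_forall fun w hw => by rw [← mul_assoc, mon_mul _ _ _ _ hw]; simp)
  intro i hi
  rw [Finset.mem_filter] at hi ⊢
  by_cases h0 : z i = 0
  · exact ⟨hi.1, h0, by simpa [hP, h0] using hi.2⟩
  · have h2 := hi.2.2
    simp only [hP, h0, if_false] at h2
    linarith [Int.le_ceil (-r i)]

theorem ev (h : Loc C r k z φ) : ∀ᶠ y in 𝓝 z, Loc C r k y φ := by
  induction h with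
  | zero => exact Eventually.of_forall fun _ => .zero
  | mon P Q g h1 h2 => exact h1.eventually_nhds.mono fun y hy => .mon P Q g hy h2
  | add φ ψ _ _ a b => exact (a.and b).mono fun y hy => .add _ _ hy.1 hy.2
  | congr φ ψ _ e a => exact (a.and e.eventually_nhds).mono fun y hy => .congr _ _ hy.1 hy.2

theorem eq_ev (e : ∀ᶠ w in 𝓝 z, Off C w → ψ w = φ w) : ∀ᶠ y in 𝓝 z, Off C y → ψ =ᶠ[𝓝 y] φ :=
  e.eventually_nhds.mono fun _ hy ho => (hy.and (off_ev ho)).mono fun _ h => h.1 h.2

theorem sm (h : Loc C r k z φ) : ∀ᶠ y in 𝓝 z, Off C y → SmN φ y := by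
  induction h with
  | zero => exact Eventually.of_forall fun _ _ => smN_const 0
  | mon P Q g h1 h2 =>
    exact h1.eventually_nhds.mono fun y hy ho =>
      SmN.mul ((off_ev ho).mono fun w hw => cd_mon hw P Q) hy
  | add φ ψ _ _ a b =>
    exact (a.and b).mono fun y hy ho => ((hy.1 ho).and (hy.2 ho)).mono fun _ h => h.1.add h.2
  | congr φ ψ _ e a =>
    exact (a.and (eq_ev e)).mono fun y hy ho =>
      ((hy.1 ho).and (hy.2 ho).eventually_nhds).mono fun _ h => h.1.congr_of_eventuallyEq h.2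

theorem df (h : Loc C r k z φ) : ∀ᶠ y in 𝓝 z, Off C y → DifferentiableAt ℝ φ y :=
  (sm h).mono fun _ hy ho => cd_diff (hy ho).self_of_nhds

theorem mulm (P Q : Fin n → ℤ) (h : Loc C r k z φ) :
    Loc C r n z fun w => φ w * mon C 0 P Q w := by
  induction h with
  | zero => exact cg .zero fun w => by simp
  | mon P' Q' f h1 h2 =>
    exact .congr _ _ (.mon (P' + P) (Q' + Q) f h1 (bad_le _ _))
      (Eventually.of_forall fun w hw => by rw [← mon_mul _ _ _ _ hw]; ring)
  | add φ ψ _ _ a b => exact cg (.add _ _ a b) fun w => add_mul _ _ _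
  | congr φ ψ _ e a => exact .congr _ _ a (e.mono fun w hw ho => by rw [hw ho])

theorem muli (j : Fin n) (c : ℂ) (h : Loc C r k z φ) :
    Loc C r n z fun w => φ w * if j ∈ C then c * (star (w j))⁻¹ else 0 := by
  split_ifs with hj
  · refine cg (mul (mulm 0 (Pi.single j (-1)) h) (smN_const c)) fun w => ?_
    rw [mon, Finset.prod_eq_single j (fun i _ hi => by simp [hi]) fun x => (x hj).elim]
    simp; ring
  · exact cg .zero fun w => by simp

theorem st (h : Loc C r k z φ) : Loc C r n z fun w => star (φ w) := by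
  induction h with
  | zero => exact cg .zero fun w => by simp
  | mon P Q f h1 h2 =>
    refine cg (.mon Q P _ (h1.mono fun _ => cd_star) (bad_le _ _)) fun w => ?_
    simp only [mon, star_mul', star_prod, star_zpow₀, star_star, RCLike.star_def, conj_ofReal]
    congr 1
    exact Finset.prod_congr rfl fun i _ => by rw [conj_conj]; ring
  | add φ ψ _ _ a b => exact cg (.add _ _ a b) fun w => star_add _ _
  | congr φ ψ _ e a => exact .congr _ _ a (e.mono fun w hw ho => by rw [hw ho])

theorem dzb_loc (j : Fin n) (h : Loc C r k z φ) : Loc C r n z (dzb j φ) := by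
  induction h with
  | zero => exact cg .zero fun w => dzb_const 0
  | mon P Q f h1 h2 =>
    refine .congr _ _ (.add _ _ (muli j (r j + Q j) (.mon P Q f h1 h2))
      (.mon P Q (dzb j f) (h1.mono fun _ h => cd_dzb h j) (bad_le _ _))) (h1.mono fun w hw ho => ?_)
    obtain ⟨a, b⟩ := K71.dzb_prod C r P Q j ho
    have := dzb_mul (j := j) a (cd_diff hw)
    rw [b] at this
    refine this.trans ?_
    simp only [mon, K71.fac]; ring
  | add φ ψ h1 h2 a b =>
    exact .congr _ _ (.add _ _ a b)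
      (((df h1).and (df h2)).mono fun w hw ho => dzb_add (hw.1 ho) (hw.2 ho))
  | congr φ ψ _ e a => exact .congr _ _ a ((eq_ev e).mono fun w hw ho => dzb_congr (hw ho))

theorem dz_loc (j : Fin n) (h : Loc C r k z φ) : Loc C r n z (dz j φ) :=
  .congr _ _ (st (dzb_loc j (st h))) ((df h).mono fun w hw ho => by
    rw [dzb_star (hw ho), star_star])

theorem cd_lN {w : E n → ℝ} (ho : Off C z) (hw : ContDiffAt ℝ ∞ w z) :
    ContDiffAt ℝ ∞ (lN C w) z :=
  (ContDiffAt.sum fun i hi => (cd_nsq (cd_coord i)).log (normSq_pos.2 (ho i hi)).ne').sub hw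

theorem dzb_lN {w : E n → ℝ} (j : Fin n) (ho : Off C z) (hw : ContDiffAt ℝ ∞ w z) :
    dzb j (fun x => (lN C w x : ℂ)) z =
      (if j ∈ C then 1 * (star (z j))⁻¹ else 0) - dzb j (fun x => (w x : ℂ)) z := by
  have h1 : ∀ i ∈ C, ContDiffAt ℝ ∞ (fun x : E n => (Real.log (normSq (x i)) : ℂ)) z :=
    fun i hi => cd_ofReal ((cd_nsq (cd_coord i)).log (normSq_pos.2 (ho i hi)).ne')
  have h2 : ∀ i ∈ C, dzb j (fun x : E n => (Real.log (normSq (x i)) : ℂ)) z =
      if i = j then (star (z i))⁻¹ else 0 := fun i hi => by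
    have d0 : DifferentiableAt ℝ (fun w : E n => w i) z := differentiableAt_apply i z
    have en : (fun w : E n => (normSq (w i) : ℂ)) = fun w => w i * star (w i) :=
      funext fun w => (mul_conj (w i)).symm
    rw [dzb_comp_real (u := fun w : E n => normSq (w i))
      (Real.hasDerivAt_log (normSq_pos.2 (ho i hi)).ne') (cd_diff (cd_nsq (cd_coord i))), en,
      dzb_mul d0 (diff_star d0), dzb_coord, dzb_star d0, dz_coord]
    have := ho i hi
    have s0 := star_ne_zero.2 this
    split_ifs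
    · push_cast; rw [congrFun en z]; simp only [star_one]; field_simp; ring
    · simp
  simp only [lN]
  push_cast
  rw [dzb_sub (cd_diff (ContDiffAt.sum h1)) (cd_diff (cd_ofReal hw)),
    dzb_sum fun i hi => cd_diff (h1 i hi), Finset.sum_congr rfl h2, Finset.sum_ite_eq']
  simp

theorem lnb (j : Fin n) {w : E n → ℝ} (h : Loc C r k z φ) (hw : SmN w z) :
    Loc C r n z fun y => φ y * dzb j (fun x => (lN C w x : ℂ)) y :=
  .congr _ _ (sub (muli j 1 h) (mul (top h) (hw.mono fun _ h => cd_dzb (cd_ofReal h) j)))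
    (hw.mono fun y hy ho => by rw [dzb_lN j ho hy, mul_sub])

theorem lnh (j : Fin n) {w : E n → ℝ} (h : Loc C r k z φ) (hw : SmN w z) :
    Loc C r n z fun y => φ y * dz j (fun x => (lN C w x : ℂ)) y :=
  .congr _ _ (st (lnb j (st h) hw)) (hw.mono fun y hy ho => by
    rw [star_mul', star_star, star_dzb_ofReal (cd_diff (cd_ofReal (cd_lN ho hy)))])

end LOCK

open LOCK in
theorem st_LOCK : St_LOCK := fun _ _ _ _ _ =>
  ⟨fun _ _ => mono, fun _ => top, fun _ h => .congr _ _ .zero h, fun _ _ => mul, fun _ _ => sub,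
    fun _ s _ => sum s, fun P Q _ => at_pt P Q, fun _ => ev, fun _ => sm, fun _ P Q => mulm P Q,
    fun _ j h => ⟨dzb_loc j h, dz_loc j h, fun _ hw => ⟨lnb j h hw, lnh j h hw⟩⟩⟩

end Pool.Agent.Lib.EXA
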