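import Pool.Agent.Lib.EX.K27
import Pool.Agent.Lib.EXA.ABlue

/-! Algebra of values at zero. -/

open scoped Classical Topology
open Set MeasureTheory Complex Metric Filter

noncomputable section

namespace Pool.Agent.Lib.EXA

open Pool.Agent.Lib.EX.K27

namespace Val

variable {J J' : ℝ → ℂ} {v v' : ℂ}

theorem ent_lim {c : ℂ → ℂ} (hc : Differentiable ℂ c) :
    Tendsto (fun t : ℝ => c t) (𝓝[>] 0) (𝓝 (c 0)) :=
  ((hc.continuous.comp continuous_ofReal).tendsto' 0 _ (by simp)).mono_left nhdsWithin_le_nhds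

theorem congr (h : Val J v) (e : ∀ᶠ t in atTop, J' t = J t) : Val J' v := by
  obtain ⟨q, F, h1, h2, h3, h4, h5⟩ := h
  exact ⟨q, F, h1, h2, h3, (h4.and e).mono fun t ht => by rw [ht.1, ht.2], h5⟩

theorem of_holo {F : ℂ → ℂ} (hF : DifferentiableOn ℂ F {μ | 0 < μ.re})
    (e : ∀ᶠ t : ℝ in atTop, F t = J t) (hv : Tendsto (fun t : ℝ => F t) (𝓝[>] 0) (𝓝 v)) : Val J v :=
  ⟨fun _ => 1, F, differentiable_const _, one_ne_zero, hF, by simpa using e, by simpa using hv⟩

theorem const (c : ℂ) : Val (fun _ => c) c :=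
  of_holo (F := fun _ => c) (differentiableOn_const _) (Eventually.of_forall fun _ => rfl)
    tendsto_const_nhds

theorem add (h : Val J v) (h' : Val J' v') : Val (fun t => J t + J' t) (v + v') := by
  obtain ⟨q, F, h1, h2, h3, h4, h5⟩ := h
  obtain ⟨q', F', k1, k2, k3, k4, k5⟩ := h'
  refine ⟨fun μ => q μ * q' μ, fun μ => F μ * q' μ + F' μ * q μ, h1.mul k1, mul_ne_zero h2 k2,
    (h3.mul k1.differentiableOn).add (k3.mul h1.differentiableOn),
    (h4.and k4).mono fun t ht => ?_, ?_⟩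
  · beta_reduce
    rw [ht.1, ht.2]; ring
  · have := (h5.mul (ent_lim k1)).add (k5.mul (ent_lim h1))
    rwa [show q 0 * v * q' 0 + q' 0 * v' * q 0 = q 0 * q' 0 * (v + v') by ring] at this

theorem mul_ent (h : Val J v) {c : ℂ → ℂ} (hc : Differentiable ℂ c) :
    Val (fun t => c t * J t) (c 0 * v) := by
  obtain ⟨q, F, h1, h2, h3, h4, h5⟩ := h
  refine ⟨q, fun μ => c μ * F μ, h1, h2, hc.differentiableOn.mul h3, h4.mono fun t ht => ?_, ?_⟩
  · beta_reduce
    rw [ht]; ring
  · have := (ent_lim hc).mul h5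
    rwa [show c 0 * (q 0 * v) = q 0 * (c 0 * v) by ring] at this

theorem of_mul_ent {c : ℂ → ℂ} (hc : Differentiable ℂ c) (h0 : c 0 ≠ 0)
    (h : Val (fun t => c t * J t) v) : Val J (v / c 0) := by
  obtain ⟨q, F, h1, h2, h3, h4, h5⟩ := h
  refine ⟨fun μ => q μ * c μ, F, h1.mul hc, mul_ne_zero h2 h0, h3, h4.mono fun t ht => ?_, ?_⟩
  · beta_reduce
    rw [ht]; ring
  · rwa [show q 0 * c 0 * (v / c 0) = q 0 * v by field_simp]

theorem const_mul (h : Val J v) (c : ℂ) : Val (fun t => c * J t) (c * v) :=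
  h.mul_ent (c := fun _ => c) (differentiable_const _)

theorem neg (h : Val J v) : Val (fun t => -J t) (-v) := by simpa using h.const_mul (-1)

theorem sub (h : Val J v) (h' : Val J' v') : Val (fun t => J t - J' t) (v - v') := by
  simpa only [sub_eq_add_neg] using h.add h'.neg

theorem mul_id (h : Val J v) : Val (fun t => t * J t) 0 := by
  simpa using h.mul_ent (c := fun μ => μ) differentiable_id

theorem mul_pow (h : Val J v) {k : ℕ} (hk : 0 < k) : Val (fun t => (t : ℂ) ^ k * J t) 0 := by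
  simpa [hk.ne'] using h.mul_ent (c := fun μ => μ ^ k) (differentiable_id.pow k)

theorem of_add_mul {c : ℂ} (h0 : c ≠ 0) (h : Val (fun t => (t + c) * J t) v) : Val J (v / c) := by
  simpa using of_mul_ent (c := fun μ => μ + c) (differentiable_id.add_const c) (by simpa) h

theorem sum {ι : Type*} {s : Finset ι} {J : ι → ℝ → ℂ} {v : ι → ℂ} (h : ∀ i ∈ s, Val (J i) (v i)) :
    Val (fun t => ∑ i ∈ s, J i t) (∑ i ∈ s, v i) := by
  induction s using Finset.induction_on with
  | empty => simpa using const 0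
  | insert a s ha ih =>
    simp only [Finset.sum_insert ha]
    exact (h a (Finset.mem_insert_self _ _)).add (ih fun i hi => h i (Finset.mem_insert_of_mem hi))

theorem sum_zero {ι : Type*} {s : Finset ι} {J : ι → ℝ → ℂ} (h : ∀ i ∈ s, Val (J i) 0) :
    Val (fun t => ∑ i ∈ s, J i t) 0 := by simpa using sum h

theorem eq_zero (h : Val J v) (e : ∀ᶠ t in atTop, J t = 0) : v = 0 := by
  obtain ⟨q, F, h1, h2, h3, h4, h5⟩ := h
  obtain ⟨R, hR⟩ := eventually_atTop.1 (h4.and e)
  have k : ∀ᶠ t : ℝ in 𝓝[>] 0, F t = 0 := eventually_mem_nhdsWithin.mono fun t ht =>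
    half_zero (R := R) h3 (fun s hs => by rw [(hR s hs.le).1, (hR s hs.le).2, mul_zero]) ht
  exact (mul_eq_zero.1 (tendsto_nhds_unique (h5.congr' k) tendsto_const_nhds)).resolve_left h2

theorem unique (h : Val J v) (h' : Val J v') : v = v' :=
  sub_eq_zero.1 ((h.sub h').eq_zero (Eventually.of_forall fun _ => sub_self _))

end Val

theorem st_VAL : St_VAL :=
  ⟨fun _ h => h.eq_zero (Eventually.of_forall fun _ => rfl), fun _ _ _ => Val.unique, Val.const 0,
    fun _ _ _ => Val.congr, fun _ _ _ _ => Val.add, fun _ _ c h => h.const_mul c,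
    fun _ _ _ _ => Val.sum, fun _ _ => Val.mul_id, fun _ _ _ => Val.of_add_mul⟩

end Pool.Agent.Lib.EXA
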