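import Pool.Agent.Lib.EXA.B_AC1
import Pool.Agent.Lib.EXA.B_AC2
import Pool.Agent.Lib.EXA.B_ACM
import Pool.Agent.Lib.EXA.B_CP
import Pool.Agent.Lib.EXA.B_DIVE
import Pool.Agent.Lib.EXA.B_GLOB
import Pool.Agent.Lib.EXA.B_IBP
import Pool.Agent.Lib.EXA.B_LAP
import Pool.Agent.Lib.EXA.B_LCH
import Pool.Agent.Lib.EXA.B_LOCK
import Pool.Agent.Lib.EXA.B_MINT
import Pool.Agent.Lib.EXA.B_VAL

/-! The analytic continuation layer without hypotheses. -/

namespace Pool.Agent.Lib.EXA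

theorem aVAL : St_VAL := st_VAL
theorem aLAP : St_LAP := st_LAP
theorem aMINT : St_MINT := bMINT
theorem aIBP : St_IBP := bIBP
theorem aLOCK : St_LOCK := st_LOCK
theorem aLCH : St_LCH := st_LCH
theorem aGLOB : St_GLOB := st_GLOB
theorem aACM : St_ACM := bACM aLAP aMINT aIBP
theorem aAC1 : St_AC1 := bAC1 aVAL aMINT aACM aGLOB
theorem aDIVE : St_DIVE := bDIVE aGLOB
theorem aCP : St_CP := bCP aMINT
theorem aAC2 : St_AC2 := bAC2 aVAL aLAP aMINT aIBP aGLOB aCP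

end Pool.Agent.Lib.EXA
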