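import Pool.Agent.Lib.EXA.ABlue

/-! Row AC1: continuation of regularised integrals and vanishing of the value. -/

open scoped Classical Topology ENNReal ContDiff ComplexConjugate
open Set MeasureTheory Complex Metric Filter

noncomputable section

namespace Pool.Agent.Lib.EXA

open Pool.Agent.Lib.SV (E)
open Pool.Agent.Lib.HS32

namespace AC1

variable {n : ℕ}

theorem dec (hV : St_VAL) (hM : St_MINT) (hA : St_ACM) {C : Finset (Fin n)} {r : Fin n → ℝ}
    {k : ℕ} {w : E n → ℝ} (hw : ContDiff ℝ ∞ w) {φ : E n → ℂ} (h : Dec C r k φ) :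
    (∀ᶠ t : ℝ in atTop, Integrable fun z => wt C w t z * φ z) ∧
      ∀ m, k ≤ m → ∃ v, Val (fun t => (t : ℂ) ^ m * RI C w φ t) v := by
  obtain ⟨-, -, v0, vc, va, -⟩ := hV
  induction h with
  | zero =>
    refine ⟨Eventually.of_forall fun t => by simp, fun m _ => ⟨0, ?_⟩⟩
    exact vc _ _ _ v0 (Eventually.of_forall fun t => by simp [RI])
  | mon P Q g hg hc hb =>
    refine ⟨?_, fun m hm => hA n C w r P Q g m hw hg hc (hb.trans hm)⟩
    have h1 : ∀ᶠ t : ℝ in atTop, ∀ i ∈ C, -2 < 2 * (r i + t) + P i + Q i := by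
      refine (eventually_all_finset C).2 fun i _ => ?_
      filter_upwards [eventually_gt_atTop ((-2 - P i - Q i) / 2 - r i)] with t ht
      linarith
    filter_upwards [h1] with t ht
    exact ((hM n C).2.2.2 w hw.continuous).2.2.2 r P Q g hg.continuous hc t ht
  | add φ ψ _ _ h1 h2 =>
    refine ⟨?_, fun m hm => ?_⟩
    · filter_upwards [h1.1, h2.1] with t a b
      simp only [mul_add]
      exact a.add b
    · obtain ⟨v, hv⟩ := h1.2 m hm
      obtain ⟨v', hv'⟩ := h2.2 m hm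
      refine ⟨v + v', vc _ _ _ (va _ _ _ _ hv hv') ?_⟩
      filter_upwards [h1.1, h2.1] with t a b
      simp only [RI, mul_add]
      rw [integral_add a b, mul_add]
  | congr φ ψ _ e h1 =>
    have h2 : ∀ t : ℝ, (fun z => wt C w t z * φ z) =ᵐ[volume] fun z => wt C w t z * ψ z :=
      fun t => (hM n C).1.mono fun z hz => by simp only [e z hz]
    refine ⟨h1.1.mono fun t a => a.congr (h2 t), fun m hm => ?_⟩
    obtain ⟨v, hv⟩ := h1.2 m hm
    refine ⟨v, vc _ _ _ hv (Eventually.of_forall fun t => ?_)⟩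
    simp only [RI]
    rw [integral_congr_ae (h2 t)]

end AC1

theorem bAC1 (hV : St_VAL) (hM : St_MINT) (hA : St_ACM) (hG : St_GLOB) : St_AC1 := by
  intro n C r k w K φ hK hw h0 hL
  obtain ⟨g1, g2, -⟩ := hG n K hK
  obtain ⟨w', hw', e⟩ := g2 w hw
  have h1 : ∀ t : ℝ, (fun z => wt C w t z * φ z) = fun z => wt C w' t z * φ z := fun t => by
    funext z
    by_cases hz : z ∈ K
    · simp only [wt, lN, (e z hz).self_of_nhds]
    · simp only [h0 z hz, mul_zero]
  have h2 : RI C w φ = RI C w' φ := by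
    funext t
    simp only [RI, h1 t]
  obtain ⟨a, b⟩ := AC1.dec hV hM hA hw' (g1 C r k φ h0 hL)
  simp only [h1, h2]
  refine ⟨a, b, fun m hm => ?_⟩
  obtain ⟨m, rfl⟩ : ∃ m', m = m' + 1 := ⟨m - 1, by omega⟩
  obtain ⟨v, hv⟩ := b m (by omega)
  obtain ⟨-, -, -, vc, -, -, -, vt, -⟩ := hV
  exact vc _ _ _ (vt _ _ hv) (Eventually.of_forall fun t => by ring)

end Pool.Agent.Lib.EXA
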